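import Pool.Agent.LPW.Num

/-!
# LPW: the final algebra

Put `q = 1 - p + 3 l`, `x = H / D`, `x' = H' / D'` (both `≤ 1/360`), `u = q - D x`, `u' = q - D' x'`; `R ≤ u`, `R' ≤ u'`.
`F(R,R') = R R' + (B - R) B' x' + (B' - R') B x`.  If `R' < B' x'` or `R < B x` then `F` is tiny and `p B B' ≥ 0.2` gives
a contradiction; otherwise `F` is increasing in `R` and `R'` (up to `u`, `u'`), so
`F(R,R') ≤ F(u,u') = q^2 + x ((B' - q) B - q D) + x' ((B - q) B' - q D') + x x' (D D' + D B' + D' B) ≤ q^2`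
(brackets `≤ - 0.05`, `x x' ≤ x / 360`).  Hence `p B B' ≤ (1 - p)^2 + C l`.  With `t = √(B B')`, `t ≥ 0.63`:
`p ≤ 1 - 2 t + 2 t^2 + 160 l` (`B + B' ≥ 2 t`), and `t^2 ≤ ((1 - p)^2 + C l)/p ≤ sc^2 + C' l` (`(1-p)^2/p` decreasing,
`pc_sc`), so `t ≤ sc + C'' l` and `p ≤ 1 - 2 sc + 2 sc^2 + C l = pc + C l` (`pc_sc'`).
-/

set_option autoImplicit false

namespace Pool.Agent.LPW

open Pool.Agent.OIP

/-- the bracket: `(B' - q) B - q D ≤ - 3/100` -/
theorem alg_bracket {q B B' D : ℝ} (hq : 0.4395 ≤ q) (hB0 : 0 ≤ B) (hB : B ≤ 0.6401) (hB' : B' ≤ 0.6401)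
    (hD : 0.3649 ≤ D) : (B' - q) * B - q * D ≤ - (3 / 100) := by
  have h1 : (B' - q) * B ≤ 0.2006 * B := mul_le_mul_of_nonneg_right (by linarith) hB0
  have h2 : 0.4395 * 0.3649 ≤ q * D := mul_le_mul hq hD (by norm_num) (by linarith)
  linarith

/-- the main estimate: `F ≤ q ^ 2` at the corner `(u, u')` -/
theorem alg_corner {q B B' D D' x x' : ℝ} (hq : 0.4395 ≤ q) (hB0 : 0 ≤ B) (hB : B ≤ 0.6401)
    (hB0' : 0 ≤ B') (hB' : B' ≤ 0.6401) (hD : 0.3649 ≤ D) (hD1 : D ≤ 0.3682)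
    (hD' : 0.3649 ≤ D') (hD1' : D' ≤ 0.3682) (hx : 0 ≤ x) (hx1 : x ≤ 1 / 360) (hx' : 0 ≤ x')
    (hx1' : x' ≤ 1 / 360) :
    (q - D * x) * (q - D' * x') + (B - (q - D * x)) * B' * x' + (B' - (q - D' * x')) * B * x ≤
      q ^ 2 := by
  have b1 := mul_le_mul_of_nonneg_right (alg_bracket hq hB0 hB hB' hD) hx
  have b2 := mul_le_mul_of_nonneg_right (alg_bracket hq hB0' hB' hB hD') hx'
  have e1 : D * D' ≤ 0.3682 * 0.3682 := mul_le_mul hD1 hD1' (by linarith) (by norm_num)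
  have e2 : D * B' ≤ 0.3682 * 0.6401 := mul_le_mul hD1 hB' hB0' (by norm_num)
  have e3 : D' * B ≤ 0.3682 * 0.6401 := mul_le_mul hD1' hB hB0 (by norm_num)
  have hxx : 0 ≤ x * x' := mul_nonneg hx hx'
  have e4 : (D * D' + D * B' + D' * B) * (x * x') ≤ 1 * (x * x') :=
    mul_le_mul_of_nonneg_right (by linarith) hxx
  have e5 : x * x' ≤ x * (1 / 360) := mul_le_mul_of_nonneg_left hx1' hx
  linarith

/-- monotonicity -/
theorem alg_mono {R R' u u' B B' x x' : ℝ} (hR : R ≤ u) (hR' : R' ≤ u') (h1 : B' * x' ≤ R')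
    (h2 : B * x ≤ R) :
    R * R' + (B - R) * B' * x' + (B' - R') * B * x ≤
      u * u' + (B - u) * B' * x' + (B' - u') * B * x := by
  have a1 : 0 ≤ (u - R) * (R' - B' * x') := mul_nonneg (by linarith) (by linarith)
  have a2 : 0 ≤ (u' - R') * (u - B * x) := mul_nonneg (by linarith) (by linarith)
  linarith

/-- the small case -/
theorem alg_small {R R' B B' x x' : ℝ} (hB : 0 ≤ B) (hB' : 0 ≤ B') (hR : 0 ≤ R) (hR' : 0 ≤ R')
    (hR1 : R ≤ B) (hx : 0 ≤ x) (hx1 : x ≤ 1 / 360) (hx1' : x' ≤ 1 / 360)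
    (h1 : R' ≤ B' * x') :
    R * R' + (B - R) * B' * x' + (B' - R') * B * x ≤ B * B' / 180 := by
  have a1 : 0 ≤ R * (B' * x' - R') := mul_nonneg hR (by linarith)
  have a2 : 0 ≤ R' * (B * x) := mul_nonneg hR' (mul_nonneg hB hx)
  have a3 : 0 ≤ (B * B') * (1 / 360 - x) := mul_nonneg (mul_nonneg hB hB') (by linarith)
  have a4 : 0 ≤ (B * B') * (1 / 360 - x') := mul_nonneg (mul_nonneg hB hB') (by linarith)
  linarith

/-- the last step -/
theorem alg_final {p l P m : ℝ} (hp : pc ≤ p) (hp1 : p ≤ 0.5605) (h0 : 0 ≤ l)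
    (hP : 0.4 ≤ P) (hm : P ≤ m ^ 2) (hm1 : 0.63 ≤ m) (hm2 : m ≤ 0.6401)
    (h2 : p * P ≤ (1 - p) ^ 2 + 43 * l) (h3 : p ≤ 1 - 2 * m + 2 * P + 160 * l) :
    p ≤ pc + 10000 * l := by
  obtain ⟨s1, s2⟩ := sc_bounds
  obtain ⟨c1, c2⟩ := pc_bounds
  have k1 := pc_sc
  have k2 := pc_sc'
  have hδ : 0 ≤ p - pc := by linarith
  have hδ1 : p - pc ≤ 0.0248 := by linarith
  -- `E = P - sc ^ 2`
  have hE : pc * (P - sc ^ 2) ≤ 43 * l := by
    have e1 : 0 ≤ (p - pc) * (0.0248 - (p - pc)) := mul_nonneg hδ (by linarith)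
    have e2 : 0 ≤ (p - pc) * (P - 0.4) := mul_nonneg hδ (by linarith)
    have e3 : 0 ≤ (p - pc) * (1 - pc - 0.4) := mul_nonneg hδ (by linarith)
    nlinarith [e1, e2, e3, k1, h2]
  have hms : P - sc ^ 2 ≤ (m - sc) * (m + sc) := by nlinarith [hm]
  rcases le_total (P - sc ^ 2) 0 with hneg | hpos
  · rcases le_total sc m with h | h
    · linarith
    · have e : (m - sc) * (m + sc) ≤ (m - sc) * 1 := by
        have : 0 ≤ (sc - m) * (m + sc - 1) := mul_nonneg (by linarith) (by linarith)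
        linarith
      linarith
  · have h5 : P - sc ^ 2 ≤ 81 * l := by
      have : 0 ≤ (pc - 0.5358) * (P - sc ^ 2) := mul_nonneg (by linarith) hpos
      linarith
    have hsm : sc ≤ m := by
      by_contra hlt
      have h6 : m < sc := not_le.mp hlt
      have : (m - sc) * (m + sc) < 0 := mul_neg_of_neg_of_pos (by linarith) (by linarith)
      linarith
    linarith

theorem wall_alg {p l B B' R R' D D' H H' : ℝ} (hp : pc ≤ p) (hp1 : p ≤ 1) (h0 : 0 ≤ l) (hl : l ≤ 1 / 10000)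
    (hB : sc - 1 / 1000 ≤ B) (hB1 : B ≤ sc + 6 / 1000) (hB' : sc - 1 / 1000 ≤ B') (hB1' : B' ≤ sc + 6 / 1000)
    (hD : 1 - sc - 1 / 1000 ≤ D) (hD1 : D ≤ 1 - sc + 2 / 1000)
    (hD' : 1 - sc - 1 / 1000 ≤ D') (hD1' : D' ≤ 1 - sc + 2 / 1000)
    (hH : 0 ≤ H) (hH1 : H ≤ 1 / 1000) (hH' : 0 ≤ H') (hH1' : H' ≤ 1 / 1000)
    (hR : 0 ≤ R) (hR1 : R ≤ B) (hR' : 0 ≤ R') (hR1' : R' ≤ B')
    (h1 : R + H ≤ 1 - p + 3 * l) (h1' : R' + H' ≤ 1 - p + 3 * l)
    (h2 : p * (B * B') ≤ R * R' + (B - R) * B' * (H' / D') + (B' - R') * B * (H / D) + 40 * l)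
    (h3 : p ≤ B * B' + (1 - B) * (1 - B') + 160 * l) :
    p ≤ pc + 10000 * l := by
  obtain ⟨s1, s2⟩ := sc_bounds
  obtain ⟨c1, c2⟩ := pc_bounds
  have hB0 : 0 ≤ B := by linarith
  have hB0' : 0 ≤ B' := by linarith
  have hBu : B ≤ 0.6401 := by linarith
  have hBu' : B' ≤ 0.6401 := by linarith
  have hD0 : 0.3649 ≤ D := by linarith
  have hD0' : 0.3649 ≤ D' := by linarith
  have hDu : D ≤ 0.3682 := by linarith
  have hDu' : D' ≤ 0.3682 := by linarith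
  have hDpos : 0 < D := by linarith
  have hDpos' : 0 < D' := by linarith
  obtain ⟨x, hxdef⟩ : ∃ x, x = H / D := ⟨_, rfl⟩
  obtain ⟨x', hxdef'⟩ : ∃ x', x' = H' / D' := ⟨_, rfl⟩
  have hHx : H = D * x := by rw [hxdef]; field_simp
  have hHx' : H' = D' * x' := by rw [hxdef']; field_simp
  have hx : 0 ≤ x := by rw [hxdef]; exact div_nonneg hH hDpos.le
  have hx' : 0 ≤ x' := by rw [hxdef']; exact div_nonneg hH' hDpos'.le
  have hx1 : x ≤ 1 / 360 := by
    rw [hxdef, div_le_iff₀ hDpos]; linarith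
  have hx1' : x' ≤ 1 / 360 := by
    rw [hxdef', div_le_iff₀ hDpos']; linarith
  rw [← hxdef, ← hxdef'] at h2
  rw [hHx] at h1
  rw [hHx'] at h1'
  have hP : 0.4 ≤ B * B' := by
    have : (0.6329 : ℝ) * 0.6329 ≤ B * B' :=
      mul_le_mul (by linarith) (by linarith) (by norm_num) hB0
    linarith
  have hp2 : p ≤ 0.5605 := by
    have e1 : B * B' ≤ 0.6401 * 0.6401 := mul_le_mul hBu hBu' hB0' (by norm_num)
    have e2 : (1 - B) * (1 - B') ≤ 0.3671 * 0.3671 :=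
      mul_le_mul (by linarith) (by linarith) (by linarith) (by norm_num)
    linarith
  have hpP : 0.2 ≤ p * (B * B') := by
    have : (0.5358 : ℝ) * 0.4 ≤ p * (B * B') :=
      mul_le_mul (by linarith) hP (by norm_num) (by linarith)
    linarith
  have hPu : B * B' ≤ 0.6401 * 0.6401 := mul_le_mul hBu hBu' hB0' (by norm_num)
  have hR2 : B * x ≤ R := by
    by_contra hlt
    have hlt' : R ≤ B * x := (not_le.mp hlt).le
    have := alg_small (R := R') (R' := R) (B := B') (B' := B) (x := x') (x' := x) hB0' hB0 hR' hR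
      hR1' hx' hx1' hx1 hlt'
    have hc : B' * B = B * B' := mul_comm _ _
    rw [hc] at this
    linarith
  have hR2' : B' * x' ≤ R' := by
    by_contra hlt
    have hlt' : R' ≤ B' * x' := (not_le.mp hlt).le
    have := alg_small (R := R) (R' := R') (B := B) (B' := B') (x := x) (x' := x') hB0 hB0' hR hR'
      hR1 hx hx1 hx1' hlt'
    linarith
  have hmono := alg_mono (R := R) (R' := R') (u := 1 - p + 3 * l - D * x)
    (u' := 1 - p + 3 * l - D' * x') (B := B) (B' := B') (x := x) (x' := x') (by linarith)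
    (by linarith) hR2' hR2
  have hcorner := alg_corner (q := 1 - p + 3 * l) (B := B) (B' := B') (D := D) (D' := D') (x := x)
    (x' := x') (by linarith) hB0 hBu hB0' hBu' hD0 hDu hD0' hDu' hx hx1 hx' hx1'
  have hq2 : (1 - p + 3 * l) ^ 2 ≤ (1 - p) ^ 2 + 3 * l := by
    have e1 : 0 ≤ l * (0.4645 - (1 - p)) := mul_nonneg h0 (by linarith)
    have e2 : 0 ≤ l * (1 / 10000 - l) := mul_nonneg h0 (by linarith)
    nlinarith [e1, e2]
  have h2' : p * (B * B') ≤ (1 - p) ^ 2 + 43 * l := by linarith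
  have hm : B * B' ≤ ((B + B') / 2) ^ 2 := by nlinarith [sq_nonneg (B - B')]
  exact alg_final (m := (B + B') / 2) hp hp2 h0 hP hm (by linarith) (by linarith) h2'
    (by linarith)

end Pool.Agent.LPW
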