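import Pool.Agent.LPW.Num

/-!
# LPW: the second order term

`c' = fl a c`, `b = fl (a+1) c`, `f = fl (a+2) c`, `mu = (RR a c' \ eK c') ∩ (eL c')ᶜ`,
`V0 = eY a c ∩ (eK c)ᶜ ∩ (eL c)ᶜ ∩ (eY (a+2) c)ᶜ ∩ mu ∩ eK f ∩ GG a c'` (does not involve the block of `b`).
(1) `ww a c * gg * gg' ≤ P (V0 ∩ eK b) + l = P V0 * bb b + l` (`leak_RL` for `c'`).
(2) `P V0 * Dd b = P (V0 ∩ eL b) ≤ P (V0 ∩ eL b ∩ (eY (a+1) c)ᶜ) + l` (`leak_YYY`).
(3) `P (V0 ∩ eL b ∩ (eY (a+1) c)ᶜ) ≤ P (MM a c ∩ eL b ∩ eK f) * P (mu ∩ GG a c')` and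
`P (mu ∩ GG a c') ≤ P ((eK c')ᶜ ∩ (eL c')ᶜ ∩ GG a c') ≤ 3/1000 * gg'`.
(4) `P (MM a c ∩ eL b ∩ eK f) * bb c' = P (MM a c ∩ eL b ∩ eK f ∩ eK c')`
`= P ((eY a c)ᶜ ∩ ...) + P (eY a c ∩ ...)`; the first is `lam (a+1) c * P (PL (a+1) c)` (same event, since
`MM a c ∩ (eY a c)ᶜ = (eY (a+1) c)ᶜ ∩ MM (a+1) c`); the second is at most (drop `(eY (a+1) c)ᶜ`)
`P (N ∩ eL b) = P N * Dd b`, `N = (eK c)ᶜ ∩ (eL c)ᶜ ∩ (eY (a+2) c)ᶜ ∩ eY a c ∩ eK f ∩ eK c'`, and
`P N * bb b = P (N ∩ eK b) = (tau a c + gam (a+2) c) * P (P3 a c)` (split according to `eY (a+1) c`).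
(5) collect: `P V0 ≤ 3/1000 * gg' * bb f * (lam + tau + gam) + l / Dd b`, then divide (1) by `gg gg' = bb b * bb f * gg'`.
-/

set_option autoImplicit false

open Finset
open scoped Classical

namespace Pool.Agent.LPW

open Pool.Agent.OIP

private theorem wb_f1 (a : Fin 3) : a + 1 + 1 = a + 2 := by fin_cases a <;> rfl

private theorem wb_f2 (a : Fin 3) : a + 1 + 2 = a := by fin_cases a <;> rfl

private theorem wb_f3 (a : Fin 3) : a + 2 + 1 = a := by fin_cases a <;> rfl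

private theorem wb_f4 (a : Fin 3) : a + 2 + 2 = a + 1 := by fin_cases a <;> rfl

private theorem wb_disj_union {A B C : Set AV} (h1 : Disjoint A C) (h2 : Disjoint B C) :
    Disjoint (A ∪ B) C := Set.disjoint_union_left.2 ⟨h1, h2⟩

private theorem wb_disj_union' {A B C : Set AV} (h1 : Disjoint A B) (h2 : Disjoint A C) :
    Disjoint A (B ∪ C) := Set.disjoint_union_right.2 ⟨h1, h2⟩

/-- the mixed event at the neighbour -/
private def wbMu (a : Fin 3) (c : Cb) : Set (SimpleGraph AV) :=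
  (RR a (fl a c) \ eK (fl a c)) ∩ (eL (fl a c))ᶜ

private def wbV (a : Fin 3) (c : Cb) : Set (SimpleGraph AV) :=
  eY a c ∩ (eK c)ᶜ ∩ (eL c)ᶜ ∩ (eY (a + 2) c)ᶜ ∩ wbMu a c ∩ eK (fl (a + 2) c) ∩ GG a (fl a c)

private def wbN (a : Fin 3) (c : Cb) : Set (SimpleGraph AV) :=
  (eK c)ᶜ ∩ (eL c)ᶜ ∩ (eY (a + 2) c)ᶜ ∩ eY a c ∩ eK (fl (a + 2) c) ∩ eK (fl a c)

private theorem wb_dep_mu (a : Fin 3) (c : Cb) :
    DepOn (blk (fl a c) ∪ (blk (fl (a + 1) (fl a c)) ∪ blk (fl (a + 2) (fl a c))))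
      (wbMu a c ∩ GG a (fl a c)) := by
  unfold wbMu RR GG
  rw [Set.sdiff_eq]
  have hK := dep_eK (fl a c)
  have hL := dep_eL (fl a c)
  have h1 := dep_eY (a + 1) (fl a c)
  have h2 := dep_eY (a + 2) (fl a c)
  have hK1 := dep_eK (fl (a + 1) (fl a c))
  have hK2 := dep_eK (fl (a + 2) (fl a c))
  have s0 : blk (fl a c) ⊆
      blk (fl a c) ∪ (blk (fl (a + 1) (fl a c)) ∪ blk (fl (a + 2) (fl a c))) :=
    Set.subset_union_left
  have s1 : blk (fl (a + 1) (fl a c)) ⊆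
      blk (fl a c) ∪ (blk (fl (a + 1) (fl a c)) ∪ blk (fl (a + 2) (fl a c))) :=
    Set.subset_union_left.trans Set.subset_union_right
  have s2 : blk (fl (a + 2) (fl a c)) ⊆
      blk (fl a c) ∪ (blk (fl (a + 1) (fl a c)) ∪ blk (fl (a + 2) (fl a c))) :=
    Set.subset_union_right.trans Set.subset_union_right
  exact (((((hK.mono s0).union (h1.mono (Set.union_subset s0 s1))).union
    (h2.mono (Set.union_subset s0 s2))).inter (hK.mono s0).compl).inter (hL.mono s0).compl).inter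
    ((hK1.mono s1).inter (hK2.mono s2))

private theorem wb_dep_V (a : Fin 3) (c : Cb) :
    DepOn (blk c ∪ blk (fl (a + 2) c) ∪
      (blk (fl a c) ∪ (blk (fl (a + 1) (fl a c)) ∪ blk (fl (a + 2) (fl a c))))) (wbV a c) := by
  have hmu := wb_dep_mu a c
  have e : wbV a c = (eY a c ∩ (eK c)ᶜ ∩ (eL c)ᶜ ∩ (eY (a + 2) c)ᶜ ∩ eK (fl (a + 2) c)) ∩
      (wbMu a c ∩ GG a (fl a c)) := by
    unfold wbV
    ext G
    simp only [Set.mem_inter_iff]
    tauto
  rw [e]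
  have s0 : blk c ⊆ blk c ∪ blk (fl (a + 2) c) ∪
      (blk (fl a c) ∪ (blk (fl (a + 1) (fl a c)) ∪ blk (fl (a + 2) (fl a c)))) :=
    Set.subset_union_left.trans Set.subset_union_left
  have s2 : blk (fl (a + 2) c) ⊆ blk c ∪ blk (fl (a + 2) c) ∪
      (blk (fl a c) ∪ (blk (fl (a + 1) (fl a c)) ∪ blk (fl (a + 2) (fl a c)))) :=
    Set.subset_union_right.trans Set.subset_union_left
  have s1 : blk (fl a c) ⊆ blk c ∪ blk (fl (a + 2) c) ∪
      (blk (fl a c) ∪ (blk (fl (a + 1) (fl a c)) ∪ blk (fl (a + 2) (fl a c)))) :=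
    Set.subset_union_left.trans Set.subset_union_right
  exact ((((((dep_eY a c).mono (Set.union_subset s0 s1)).inter ((dep_eK c).mono s0).compl).inter
    ((dep_eL c).mono s0).compl).inter ((dep_eY (a + 2) c).mono (Set.union_subset s0 s2)).compl).inter
    ((dep_eK (fl (a + 2) c)).mono s2)).inter (hmu.mono Set.subset_union_right)

private theorem wb_dep_M (a : Fin 3) (c : Cb) :
    DepOn (blk c ∪ (blk (fl (a + 1) c) ∪ blk (fl (a + 2) c)))
      (MM a c ∩ eL (fl (a + 1) c) ∩ eK (fl (a + 2) c)) := by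
  unfold MM
  have s0 : blk c ⊆ blk c ∪ (blk (fl (a + 1) c) ∪ blk (fl (a + 2) c)) := Set.subset_union_left
  have s1 : blk (fl (a + 1) c) ⊆ blk c ∪ (blk (fl (a + 1) c) ∪ blk (fl (a + 2) c)) :=
    Set.subset_union_left.trans Set.subset_union_right
  have s2 : blk (fl (a + 2) c) ⊆ blk c ∪ (blk (fl (a + 1) c) ∪ blk (fl (a + 2) c)) :=
    Set.subset_union_right.trans Set.subset_union_right
  exact ((((((dep_eK c).mono s0).compl.inter ((dep_eL c).mono s0).compl).inter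
    ((dep_eY (a + 1) c).mono (Set.union_subset s0 s1)).compl).inter
    ((dep_eY (a + 2) c).mono (Set.union_subset s0 s2)).compl).inter
    ((dep_eL (fl (a + 1) c)).mono s1)).inter ((dep_eK (fl (a + 2) c)).mono s2)

private theorem wb_dep_N (a : Fin 3) (c : Cb) :
    DepOn (blk c ∪ (blk (fl a c) ∪ blk (fl (a + 2) c))) (wbN a c) := by
  unfold wbN
  have s0 : blk c ⊆ blk c ∪ (blk (fl a c) ∪ blk (fl (a + 2) c)) := Set.subset_union_left
  have s1 : blk (fl a c) ⊆ blk c ∪ (blk (fl a c) ∪ blk (fl (a + 2) c)) :=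
    Set.subset_union_left.trans Set.subset_union_right
  have s2 : blk (fl (a + 2) c) ⊆ blk c ∪ (blk (fl a c) ∪ blk (fl (a + 2) c)) :=
    Set.subset_union_right.trans Set.subset_union_right
  exact ((((((dep_eK c).mono s0).compl.inter ((dep_eL c).mono s0).compl).inter
    ((dep_eY (a + 2) c).mono (Set.union_subset s0 s2)).compl).inter
    ((dep_eY a c).mono (Set.union_subset s0 s1))).inter
    ((dep_eK (fl (a + 2) c)).mono s2)).inter ((dep_eK (fl a c)).mono s1)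

theorem ww_le {Ω : Type} [Fintype Ω] {p l : ℝ} {w : Ω → ℝ} {W : Ω → SimpleGraph AV}
    (h : WallLaw p (1 / 1000) l w W) (h0 : 0 ≤ l) (hl : l ≤ 1 / 10000) (a : Fin 3) (c : Cb) :
    ww w W a c ≤ 3 / 1000 * (lam w W (a + 1) c + tau w W a c + gam w W (a + 2) c) + 40 * l := by
  have hnd := fl_edge a c
  simp only [List.nodup_cons, List.mem_cons, List.not_mem_nil, or_false, not_or,
    List.nodup_nil, and_true, not_false_eq_true] at hnd
  obtain ⟨⟨n01, n02, n03, n04, n05⟩, ⟨n12, n13, n14, n15⟩, ⟨n23, n24, n25⟩, ⟨n34, n35⟩, n45⟩ := hnd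
  set c' := fl a c with hc'
  set b := fl (a + 1) c with hb
  set f := fl (a + 2) c with hf
  set b' := fl (a + 1) c' with hb'
  set f' := fl (a + 2) c' with hf'
  -- numbers
  obtain ⟨hs1, hs2⟩ := sc_bounds
  have hbb := num_bb h hl b
  have hbf := num_bb h hl f
  have hbc := num_bb h hl c'
  have hDb := num_Dd h hl b
  have hg := gg_bounds h hl a c
  have hg' := gg_bounds h hl a c'
  have ggc : gg w W a c = bb w W b * bb w W f := gg_eq h a c
  have hnn := num_nonneg h hl a c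
  have hnn1 := num_nonneg h hl (a + 1) c
  have hnn2 := num_nonneg h hl (a + 2) c
  set B := bb w W b with hB
  set Bf := bb w W f with hBf
  set Bc := bb w W c' with hBc
  set Db := Dd w W b with hDbd
  set g' := gg w W a c' with hg'd
  have hB0 : 0 < B := by linarith [hbb.1]
  have hBf0 : 0 < Bf := by linarith [hbf.1]
  have hBc0 : 0 < Bc := by linarith [hbc.1]
  have hD0 : 0 < Db := by linarith [hDb.1]
  have hg'0 : 0 < g' := by linarith [hg'.1]
  -- independence facts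
  have hDV : Disjoint (blk c ∪ blk f ∪ (blk c' ∪ (blk b' ∪ blk f'))) (blk b) :=
    wb_disj_union (wb_disj_union (disj_blk n02) (disj_blk (Ne.symm n23)))
      (wb_disj_union (disj_blk n12)
        (wb_disj_union (disj_blk (Ne.symm n24)) (disj_blk (Ne.symm n25))))
  have hSV : Sat (blk c ∪ blk f ∪ (blk c' ∪ (blk b' ∪ blk f'))) :=
    ((sat_blk c).union (sat_blk f)).union
      ((sat_blk c').union ((sat_blk b').union (sat_blk f')))
  -- (1)
  have e1 : PG w W (eY a c ∩ MM a c ∩ (RR a c' \ eK c') ∩ (GG a c ∩ GG a c')) ≤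
      PG w W (wbV a c) * B + l := by
    have h1 : PG w W (eY a c ∩ MM a c ∩ (RR a c' \ eK c') ∩ (GG a c ∩ GG a c')) ≤
        PG w W (wbV a c ∩ eK b) + l := by
      refine PG_le_leak h ?_
      rintro G ⟨⟨⟨hY, ⟨⟨⟨hK, hL⟩, hY1⟩, hY2⟩⟩, ⟨hR, hK'⟩⟩, ⟨⟨hb1, hf1⟩, hg⟩⟩
      by_cases hL' : G ∈ eL c'
      · exact Or.inr (leak_RL a c' ⟨⟨hR, hg⟩, hL'⟩)
      · exact Or.inl ⟨⟨⟨⟨⟨⟨⟨hY, hK⟩, hL⟩, hY2⟩, ⟨⟨hR, hK'⟩, hL'⟩⟩, hf1⟩, hg⟩, hb1⟩
    have h2 : PG w W (wbV a c ∩ eK b) = PG w W (wbV a c) * PG w W (eK b) :=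
      PG_inter h hSV (sat_blk b) hDV (wb_dep_V a c) (dep_eK b)
    rw [h2] at h1
    exact h1
  -- (2)
  have e2 : PG w W (wbV a c) * Db ≤ PG w W (wbV a c ∩ eL b ∩ (eY (a + 1) c)ᶜ) + l := by
    have h2 : PG w W (wbV a c ∩ eL b) = PG w W (wbV a c) * PG w W (eL b) :=
      PG_inter h hSV (sat_blk b) hDV (wb_dep_V a c) (dep_eL b)
    have h3 : Db = PG w W (eL b) := rfl
    rw [h3, ← h2]
    refine PG_le_leak h ?_
    rintro G ⟨⟨⟨⟨⟨⟨⟨hY, hK⟩, hL⟩, hY2⟩, ⟨⟨hR, hK'⟩, hL'⟩⟩, hf1⟩, hg⟩, hLb⟩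
    by_cases hY1 : G ∈ eY (a + 1) c
    · exact Or.inr (leak_YYY a c ⟨⟨⟨⟨hR, hg⟩, hY⟩, hY1⟩, hLb⟩)
    · exact Or.inl ⟨⟨⟨⟨⟨⟨⟨⟨hY, hK⟩, hL⟩, hY2⟩, ⟨⟨hR, hK'⟩, hL'⟩⟩, hf1⟩, hg⟩, hLb⟩, hY1⟩
  -- (3)
  set X := PG w W (MM a c ∩ eL b ∩ eK f) with hX
  have hX0 : 0 ≤ X := PG_nonneg h _
  have e3 : PG w W (wbV a c ∩ eL b ∩ (eY (a + 1) c)ᶜ) ≤ X * (3 / 1000 * g') := by
    have h1 : PG w W (wbV a c ∩ eL b ∩ (eY (a + 1) c)ᶜ) ≤
        PG w W ((MM a c ∩ eL b ∩ eK f) ∩ (wbMu a c ∩ GG a c')) := by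
      refine PG_mono h ?_
      rintro G ⟨⟨⟨⟨⟨⟨⟨⟨hY, hK⟩, hL⟩, hY2⟩, hmu⟩, hf1⟩, hg⟩, hLb⟩, hY1⟩
      exact ⟨⟨⟨⟨⟨⟨hK, hL⟩, hY1⟩, hY2⟩, hLb⟩, hf1⟩, ⟨hmu, hg⟩⟩
    have h2 : PG w W ((MM a c ∩ eL b ∩ eK f) ∩ (wbMu a c ∩ GG a c')) =
        X * PG w W (wbMu a c ∩ GG a c') := by
      refine PG_inter h ((sat_blk c).union ((sat_blk b).union (sat_blk f)))
        ((sat_blk c').union ((sat_blk b').union (sat_blk f'))) ?_ (wb_dep_M a c) (wb_dep_mu a c)
      refine wb_disj_union ?_ (wb_disj_union ?_ ?_)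
      · exact wb_disj_union' (disj_blk n01) (wb_disj_union' (disj_blk n04) (disj_blk n05))
      · exact wb_disj_union' (disj_blk (Ne.symm n12)) (wb_disj_union' (disj_blk n24) (disj_blk n25))
      · exact wb_disj_union' (disj_blk (Ne.symm n13)) (wb_disj_union' (disj_blk n34) (disj_blk n35))
    have h3 : PG w W (wbMu a c ∩ GG a c') ≤ 3 / 1000 * g' := by
      have h4 : PG w W (wbMu a c ∩ GG a c') ≤ PG w W (((eK c')ᶜ ∩ (eL c')ᶜ) ∩ GG a c') := by
        refine PG_mono h ?_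
        rintro G ⟨⟨⟨hR, hK'⟩, hL'⟩, hg⟩
        exact ⟨⟨hK', hL'⟩, hg⟩
      have h5 : PG w W (((eK c')ᶜ ∩ (eL c')ᶜ) ∩ GG a c') =
          PG w W ((eK c')ᶜ ∩ (eL c')ᶜ) * PG w W (GG a c') := by
        refine PG_inter h (sat_blk c') ((sat_blk b').union (sat_blk f'))
          (wb_disj_union' (disj_blk n14) (disj_blk n15))
          ((dep_eK c').compl.inter (dep_eL c').compl) ?_
        exact ((dep_eK b').mono Set.subset_union_left).inter
          ((dep_eK f').mono Set.subset_union_right)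
      have h6 := num_neither h hl c'
      rw [h5] at h4
      refine h4.trans ?_
      exact mul_le_mul_of_nonneg_right h6 hg'0.le
    rw [h2] at h1
    exact h1.trans (mul_le_mul_of_nonneg_left h3 hX0)
  -- (4)
  have e4 : X * Bc ≤ lam w W (a + 1) c * (Db * (Bf * Bc)) + PG w W (wbN a c) * Db := by
    have h1 : PG w W ((MM a c ∩ eL b ∩ eK f) ∩ eK c') = X * PG w W (eK c') := by
      refine PG_inter h ((sat_blk c).union ((sat_blk b).union (sat_blk f))) (sat_blk c') ?_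
        (wb_dep_M a c) (dep_eK c')
      exact wb_disj_union (disj_blk n01)
        (wb_disj_union (disj_blk (Ne.symm n12)) (disj_blk (Ne.symm n13)))
    have h2 := PG_split h ((MM a c ∩ eL b ∩ eK f) ∩ eK c') (eY a c)
    have h3 : PG w W (((MM a c ∩ eL b ∩ eK f) ∩ eK c') ∩ (eY a c)ᶜ) =
        lam w W (a + 1) c * (Db * (Bf * Bc)) := by
      have h4 : PG w W (PL (a + 1) c) = Db * (Bf * Bc) := by
        rw [PL_eq h (a + 1) c, gg_eq h (a + 1) c, wb_f1, wb_f2]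
      have h5 : lam w W (a + 1) c * PG w W (PL (a + 1) c) =
          PG w W ((eY (a + 1) c)ᶜ ∩ MM (a + 1) c ∩ PL (a + 1) c) := by
        unfold lam
        refine div_mul_cancel₀ _ ?_
        rw [h4]
        positivity
      rw [← h4, h5]
      congr 1
      ext G
      simp only [MM, PL, GG, Set.mem_inter_iff, Set.mem_compl_iff, wb_f1, wb_f2]
      tauto
    have h6 : PG w W (((MM a c ∩ eL b ∩ eK f) ∩ eK c') ∩ eY a c) ≤ PG w W (wbN a c) * Db := by
      have h7 : PG w W (wbN a c ∩ eL b) = PG w W (wbN a c) * PG w W (eL b) := by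
        refine PG_inter h ((sat_blk c).union ((sat_blk c').union (sat_blk f))) (sat_blk b) ?_
          (wb_dep_N a c) (dep_eL b)
        exact wb_disj_union (disj_blk n02) (wb_disj_union (disj_blk n12) (disj_blk (Ne.symm n23)))
      have h8 : Db = PG w W (eL b) := rfl
      rw [h8, ← h7]
      refine PG_mono h ?_
      rintro G ⟨⟨⟨⟨⟨⟨⟨hK, hL⟩, hY1⟩, hY2⟩, hLb⟩, hf1⟩, hK'⟩, hY⟩
      exact ⟨⟨⟨⟨⟨⟨hK, hL⟩, hY2⟩, hY⟩, hf1⟩, hK'⟩, hLb⟩
    have h9 : Bc = PG w W (eK c') := rfl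
    rw [h9, ← h1, ← h2, h3, ← h9]
    linarith
  have e5 : PG w W (wbN a c) * B = (tau w W a c + gam w W (a + 2) c) * (Bc * (B * Bf)) := by
    have h1 : PG w W (wbN a c ∩ eK b) = PG w W (wbN a c) * PG w W (eK b) := by
      refine PG_inter h ((sat_blk c).union ((sat_blk c').union (sat_blk f))) (sat_blk b) ?_
        (wb_dep_N a c) (dep_eK b)
      exact wb_disj_union (disj_blk n02) (wb_disj_union (disj_blk n12) (disj_blk (Ne.symm n23)))
    have h2 := PG_split h (wbN a c ∩ eK b) (eY (a + 1) c)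
    have hP3 : PG w W (P3 a c) = Bc * (B * Bf) := by
      rw [P3_eq h a c, ggc]
    have hP3' : PG w W (P3 (a + 2) c) = Bc * (B * Bf) := by
      rw [P3_eq h (a + 2) c, gg_eq h (a + 2) c, wb_f3, wb_f4]
      ring
    have hpos : Bc * (B * Bf) ≠ 0 := by positivity
    have h3 : PG w W ((wbN a c ∩ eK b) ∩ (eY (a + 1) c)ᶜ) = tau w W a c * (Bc * (B * Bf)) := by
      have h5 : tau w W a c * PG w W (P3 a c) = PG w W (eY a c ∩ MM a c ∩ P3 a c) := by
        unfold tau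
        refine div_mul_cancel₀ _ ?_
        rw [hP3]
        exact hpos
      rw [← hP3, h5]
      congr 1
      ext G
      simp only [MM, P3, GG, wbN, Set.mem_inter_iff, Set.mem_compl_iff]
      tauto
    have h4 : PG w W ((wbN a c ∩ eK b) ∩ eY (a + 1) c) =
        gam w W (a + 2) c * (Bc * (B * Bf)) := by
      have h5 : gam w W (a + 2) c * PG w W (P3 (a + 2) c) =
          PG w W ((eY (a + 2) c)ᶜ ∩ (eY (a + 2 + 1) c ∩ eY (a + 2 + 2) c ∩ (eK c)ᶜ ∩ (eL c)ᶜ) ∩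
            P3 (a + 2) c) := by
        unfold gam
        refine div_mul_cancel₀ _ ?_
        rw [hP3']
        exact hpos
      rw [← hP3', h5]
      congr 1
      ext G
      simp only [P3, GG, wbN, Set.mem_inter_iff, Set.mem_compl_iff, wb_f3, wb_f4]
      tauto
    have h9 : B = PG w W (eK b) := rfl
    have h10 : PG w W (wbN a c) * B = PG w W (wbN a c ∩ eK b) := by rw [h1, ← h9]
    rw [h10, ← h2, h3, h4]
    ring
  -- (5)
  set T := lam w W (a + 1) c + tau w W a c + gam w W (a + 2) c with hT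
  have hT0 : 0 ≤ T := by
    have := hnn1.2.2.1
    have := hnn.1
    have := hnn2.2.1
    linarith
  have e6 : PG w W (wbN a c) = (tau w W a c + gam w W (a + 2) c) * (Bc * Bf) := by
    have h1 : PG w W (wbN a c) * B = ((tau w W a c + gam w W (a + 2) c) * (Bc * Bf)) * B := by
      rw [e5]
      ring
    exact mul_right_cancel₀ hB0.ne' h1
  have e7 : X ≤ Db * Bf * T := by
    have h1 : X * Bc ≤ (Db * Bf * T) * Bc := by
      rw [e6] at e4
      calc X * Bc ≤ _ := e4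
        _ = (Db * Bf * T) * Bc := by rw [hT]; ring
    exact le_of_mul_le_mul_right h1 hBc0
  set x := PG w W (wbV a c) with hx
  have e8 : x * Db ≤ Db * Bf * T * (3 / 1000 * g') + l := by
    have h1 : X * (3 / 1000 * g') ≤ Db * Bf * T * (3 / 1000 * g') :=
      mul_le_mul_of_nonneg_right e7 (by positivity)
    linarith
  have e9 : x ≤ Bf * T * (3 / 1000 * g') + l / Db := by
    have h1 : x * Db ≤ (Bf * T * (3 / 1000 * g') + l / Db) * Db := by
      rw [add_mul, div_mul_cancel₀ _ hD0.ne']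
      calc x * Db ≤ _ := e8
        _ = Bf * T * (3 / 1000 * g') * Db + l := by ring
    exact le_of_mul_le_mul_right h1 hD0
  have hww : ww w W a c =
      PG w W (eY a c ∩ MM a c ∩ (RR a c' \ eK c') ∩ (GG a c ∩ GG a c')) / (gg w W a c * g') := rfl
  rw [hww, div_le_iff₀ (by rw [ggc]; positivity), ggc]
  refine e1.trans ?_
  have e10 : x * B ≤ (Bf * T * (3 / 1000 * g') + l / Db) * B :=
    mul_le_mul_of_nonneg_right e9 hB0.le
  have e11 : l / Db * B + l ≤ 40 * l * (B * Bf * g') := by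
    have h1 : B / Db ≤ 2 := by
      rw [div_le_iff₀ hD0]
      linarith [hbb.2, hDb.1]
    have h2 : l / Db * B = l * (B / Db) := by ring
    rw [h2]
    have h3 : 0.16 ≤ B * Bf * g' := by
      rw [← ggc]
      nlinarith [hg.1, hg'.1]
    have h4 : l * (B / Db) ≤ l * 2 := mul_le_mul_of_nonneg_left h1 h0
    have h5 : 40 * l * 0.16 ≤ 40 * l * (B * Bf * g') :=
      mul_le_mul_of_nonneg_left h3 (by linarith)
    linarith
  calc x * B + l ≤ (Bf * T * (3 / 1000 * g') + l / Db) * B + l := by linarith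
    _ = 3 / 1000 * T * (B * Bf * g') + (l / Db * B + l) := by ring
    _ ≤ 3 / 1000 * T * (B * Bf * g') + 40 * l * (B * Bf * g') := by linarith
    _ = (3 / 1000 * T + 40 * l) * (B * Bf * g') := by ring

end Pool.Agent.LPW
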