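import Pool.Agent.LPW.Gb
import Pool.Agent.LPW.Wb

/-!
# LPW: some edge has a small correction term

For every `c`: `∑ a, gs a c ≤ 120 l` (`ww_le`; the coefficient of `tau a c` is
`3/1000 + bb (fl a c) - bb (fl (a+1) c) - bb (fl (a+2) c) < 0`, that of `lam a c` is `3/1000 - Dd (fl a c) < 0`, that of
`gam a c` is `3/1000 - bb (fl a c) < 0`).  Sum over `c` (`fl a` is a bijection): the sum over all `(a, c)` of
`gs a c + gs a (fl a c)` is at most `1920 l`, so one of the 24 terms is at most `80 l`; use `Ge_le`.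
-/

set_option autoImplicit false

open Finset
open scoped Classical

namespace Pool.Agent.LPW

open Pool.Agent.OIP

theorem sum_gs_le {Ω : Type} [Fintype Ω] {p l : ℝ} {w : Ω → ℝ} {W : Ω → SimpleGraph AV}
    (h : WallLaw p (1 / 1000) l w W) (h0 : 0 ≤ l) (hl : l ≤ 1 / 10000) (c : Cb) :
    ∑ a : Fin 3, gs w W a c ≤ 120 * l := by
  have hs := sc_bounds
  have e01 : (0 : Fin 3) + 1 = 1 := rfl
  have e02 : (0 : Fin 3) + 2 = 2 := rfl
  have e11 : (1 : Fin 3) + 1 = 2 := rfl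
  have e12 : (1 : Fin 3) + 2 = 0 := rfl
  have e21 : (2 : Fin 3) + 1 = 0 := rfl
  have e22 : (2 : Fin 3) + 2 = 1 := rfl
  have w0 := ww_le h h0 hl 0 c
  have w1 := ww_le h h0 hl 1 c
  have w2 := ww_le h h0 hl 2 c
  rw [e01, e02] at w0
  rw [e11, e12] at w1
  rw [e21, e22] at w2
  obtain ⟨t0, g0, l0, -⟩ := num_nonneg h hl 0 c
  obtain ⟨t1, g1, l1, -⟩ := num_nonneg h hl 1 c
  obtain ⟨t2, g2, l2, -⟩ := num_nonneg h hl 2 c
  obtain ⟨b0, b0'⟩ := num_bb h hl (fl 0 c)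
  obtain ⟨b1, b1'⟩ := num_bb h hl (fl 1 c)
  obtain ⟨b2, b2'⟩ := num_bb h hl (fl 2 c)
  obtain ⟨d0, -⟩ := num_Dd h hl (fl 0 c)
  obtain ⟨d1, -⟩ := num_Dd h hl (fl 1 c)
  obtain ⟨d2, -⟩ := num_Dd h hl (fl 2 c)
  rw [Fin.sum_univ_three]
  unfold gs
  rw [e01, e02, e11, e12, e21, e22]
  have k1 : tau w W 0 c * (3 / 1000 + bb w W (fl 0 c) - bb w W (fl 1 c) - bb w W (fl 2 c)) ≤ 0 :=
    mul_nonpos_of_nonneg_of_nonpos t0 (by linarith [hs.1, hs.2])
  have k2 : tau w W 1 c * (3 / 1000 + bb w W (fl 1 c) - bb w W (fl 2 c) - bb w W (fl 0 c)) ≤ 0 :=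
    mul_nonpos_of_nonneg_of_nonpos t1 (by linarith [hs.1, hs.2])
  have k3 : tau w W 2 c * (3 / 1000 + bb w W (fl 2 c) - bb w W (fl 0 c) - bb w W (fl 1 c)) ≤ 0 :=
    mul_nonpos_of_nonneg_of_nonpos t2 (by linarith [hs.1, hs.2])
  have k4 : gam w W 0 c * (3 / 1000 - bb w W (fl 0 c)) ≤ 0 :=
    mul_nonpos_of_nonneg_of_nonpos g0 (by linarith [hs.1, hs.2])
  have k5 : gam w W 1 c * (3 / 1000 - bb w W (fl 1 c)) ≤ 0 :=
    mul_nonpos_of_nonneg_of_nonpos g1 (by linarith [hs.1, hs.2])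
  have k6 : gam w W 2 c * (3 / 1000 - bb w W (fl 2 c)) ≤ 0 :=
    mul_nonpos_of_nonneg_of_nonpos g2 (by linarith [hs.1, hs.2])
  have k7 : lam w W 0 c * (3 / 1000 - Dd w W (fl 0 c)) ≤ 0 :=
    mul_nonpos_of_nonneg_of_nonpos l0 (by linarith [hs.1, hs.2])
  have k8 : lam w W 1 c * (3 / 1000 - Dd w W (fl 1 c)) ≤ 0 :=
    mul_nonpos_of_nonneg_of_nonpos l1 (by linarith [hs.1, hs.2])
  have k9 : lam w W 2 c * (3 / 1000 - Dd w W (fl 2 c)) ≤ 0 :=
    mul_nonpos_of_nonneg_of_nonpos l2 (by linarith [hs.1, hs.2])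
  linarith

theorem exists_Ge_le {Ω : Type} [Fintype Ω] {p l : ℝ} {w : Ω → ℝ} {W : Ω → SimpleGraph AV}
    (h : WallLaw p (1 / 1000) l w W) (h0 : 0 ≤ l) (hl : l ≤ 1 / 10000) :
    ∃ (a : Fin 3) (c : Cb), Ge w W a c ≤ 120 * l := by
  by_contra hcon
  push Not at hcon
  have h1 : ∀ (a : Fin 3) (c : Cb), 80 * l < gs w W a c + gs w W a (fl a c) := by
    intro a c
    have h2 := hcon a c
    have h3 := Ge_le h h0 hl a c
    linarith
  have hbij : ∀ a : Fin 3, ∑ c : Cb, gs w W a (fl a c) = ∑ c : Cb, gs w W a c := by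
    intro a
    exact Function.Bijective.sum_comp
      (Function.Involutive.bijective (f := fl a) (fun c => fl_fl a c)) (fun c => gs w W a c)
  have h4 : ∑ a : Fin 3, ∑ c : Cb, (80 * l) < ∑ a : Fin 3, ∑ c : Cb, (gs w W a c + gs w W a (fl a c)) := by
    apply Finset.sum_lt_sum_of_nonempty Finset.univ_nonempty
    intro a _
    apply Finset.sum_lt_sum_of_nonempty Finset.univ_nonempty
    intro c _
    exact h1 a c
  have h5 : ∑ a : Fin 3, ∑ c : Cb, (gs w W a c + gs w W a (fl a c))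
      = 2 * ∑ c : Cb, ∑ a : Fin 3, gs w W a c := by
    have h6 : ∀ a : Fin 3, ∑ c : Cb, (gs w W a c + gs w W a (fl a c)) = 2 * ∑ c : Cb, gs w W a c := by
      intro a
      rw [Finset.sum_add_distrib, hbij a]
      ring
    rw [Finset.sum_congr rfl fun a _ => h6 a, ← Finset.mul_sum, Finset.sum_comm]
  have h7 : ∑ c : Cb, ∑ a : Fin 3, gs w W a c ≤ ∑ c : Cb, 120 * l :=
    Finset.sum_le_sum fun c _ => sum_gs_le h h0 hl c
  have hcard : Fintype.card Cb = 8 := by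
    unfold Cb
    simp
  rw [h5] at h4
  simp only [Finset.sum_const, Finset.card_univ, hcard, Fintype.card_fin, nsmul_eq_mul] at h4 h7
  push_cast at h4 h7
  linarith

end Pool.Agent.LPW
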