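import Pool.Agent.LPW.Num

/-!
# LPW: inequality (II) for the edge `vX c - vX (fl a c)`

Write `c' = fl a c`, `O = eXX a c`, `P` = `PG`, primes for `c'`.  By independence
`p gg gg' BB BB' ≤ P (O) P (RR ∩ GG) P (RR' ∩ GG') = P (O ∩ RR ∩ GG ∩ RR' ∩ GG')`
`≤ P (eXᶜ ∩ eX'ᶜ ∩ RR ∩ GG ∩ RR' ∩ GG') + P (O ∩ eX ∩ RR ∩ GG ∩ RR' ∩ GG') + P (O ∩ eX' ∩ RR ∩ GG ∩ RR' ∩ GG')`.
First term: `= gg gg' RA RA'` (the two factors live on `{vX c}, blk c, ...` and on `{vX c'}, blk c', ...`).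
Second term: `= P (O ∩ eX ∩ RR ∩ GG) gg' BB'` (the first event lives on `vX c, vX c'`, `blk c` and the blocks of the
neighbours `fl (a+1) c`, `fl (a+2) c`), and
`P (O ∩ eX ∩ RR ∩ GG) Dd' = P (O ∩ eX ∩ RR ∩ GG ∩ eL') ≤ P (eX ∩ RR ∩ GG ∩ eX'ᶜ ∩ eL') + l = gg (BB - RA) Hd' + l`
(`leak_XX`).  Third term symmetric.  Divide by `gg gg'` (`gg ≥ 0.4`, `Dd ≥ 0.36`).
-/

set_option autoImplicit false

open Finset
open scoped Classical

namespace Pool.Agent.LPW

open Pool.Agent.OIP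

/-- the blocks of `c` and of its neighbours in the directions `a + 1`, `a + 2` -/
def i2_S (a : Fin 3) (c : Cb) : Set AV := blk c ∪ blk (fl (a + 1) c) ∪ blk (fl (a + 2) c)

theorem i2_satS (a : Fin 3) (c : Cb) : Sat (i2_S a c) :=
  ((sat_blk c).union (sat_blk _)).union (sat_blk _)

theorem i2_disjXS (a : Fin 3) (c d : Cb) : Disjoint ({vX d} : Set AV) (i2_S a c) := by
  unfold i2_S
  rw [Set.disjoint_union_right, Set.disjoint_union_right]
  exact ⟨⟨disj_X_blk _ _, disj_X_blk _ _⟩, disj_X_blk _ _⟩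

theorem i2_disjXX (a : Fin 3) (c : Cb) : Disjoint ({vX c} : Set AV) ({vX (fl a c)} : Set AV) := by
  rw [Set.disjoint_singleton]
  intro h
  have h1 : c = fl a c := congrArg Prod.snd h
  exact fl_ne a c h1.symm

theorem i2_disjSS (a : Fin 3) (c : Cb) : Disjoint (i2_S a c) (i2_S a (fl a c)) := by
  have hn := fl_edge a c
  simp only [List.nodup_cons, List.mem_cons, List.not_mem_nil, or_false, not_or] at hn
  obtain ⟨⟨h01, h02, h03, h04, h05⟩, ⟨h12, h13, h14, h15⟩, ⟨h23, h24, h25⟩, ⟨h34, h35⟩, h45, -⟩ := hn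
  unfold i2_S
  simp only [Set.disjoint_union_left, Set.disjoint_union_right]
  refine ⟨⟨⟨⟨?_, ?_⟩, ?_⟩, ⟨⟨?_, ?_⟩, ?_⟩⟩, ⟨⟨?_, ?_⟩, ?_⟩⟩
  · exact disj_blk h01
  · exact disj_blk (Ne.symm h12)
  · exact disj_blk (Ne.symm h13)
  · exact disj_blk h04
  · exact disj_blk h24
  · exact disj_blk h34
  · exact disj_blk h05
  · exact disj_blk h25
  · exact disj_blk h35

theorem i2_depGG (a : Fin 3) (c : Cb) : DepOn (i2_S a c) (GG a c) := by
  unfold GG
  refine DepOn.inter ((dep_eK _).mono ?_) ((dep_eK _).mono ?_)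
  · intro x hx; exact Or.inl (Or.inr hx)
  · intro x hx; exact Or.inr hx

theorem i2_depRR (a : Fin 3) (c : Cb) : DepOn (i2_S a c) (RR a c) := by
  unfold RR
  refine DepOn.union (DepOn.union ((dep_eK _).mono ?_) ((dep_eY _ _).mono ?_)) ((dep_eY _ _).mono ?_)
  · intro x hx; exact Or.inl (Or.inl hx)
  · rintro x (hx | hx)
    · exact Or.inl (Or.inl hx)
    · exact Or.inl (Or.inr hx)
  · rintro x (hx | hx)
    · exact Or.inl (Or.inl hx)
    · exact Or.inr hx

theorem i2_depX (a : Fin 3) (c : Cb) : DepOn ({vX c} ∪ i2_S a c) (eX c) := by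
  refine (dep_eX c).mono ?_
  rintro x (hx | hx)
  · exact Or.inl hx
  · exact Or.inr (Or.inl (Or.inl hx))

section prod

variable {Ω : Type} [Fintype Ω] {p l : ℝ} {w : Ω → ℝ} {W : Ω → SimpleGraph AV}

theorem i2_BB (h : WallLaw p (1 / 1000) l w W) (hl : l ≤ 1 / 10000) (a : Fin 3) (c : Cb) :
    PG w W (RR a c ∩ GG a c) = gg w W a c * BB w W a c := by
  have hg := (gg_bounds h hl a c).1
  have hg' : gg w W a c ≠ 0 := by
    intro h0
    rw [h0] at hg
    norm_num at hg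
  unfold BB
  field_simp

theorem i2_RA (h : WallLaw p (1 / 1000) l w W) (hl : l ≤ 1 / 10000) (a : Fin 3) (c : Cb) :
    PG w W ((eX c)ᶜ ∩ RR a c ∩ GG a c) = gg w W a c * RA w W a c := by
  have hg := (gg_bounds h hl a c).1
  have hg' : gg w W a c ≠ 0 := by
    intro h0
    rw [h0] at hg
    norm_num at hg
  unfold RA
  field_simp

theorem i2_EX (h : WallLaw p (1 / 1000) l w W) (hl : l ≤ 1 / 10000) (a : Fin 3) (c : Cb) :
    PG w W (eX c ∩ RR a c ∩ GG a c) = gg w W a c * (BB w W a c - RA w W a c) := by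
  have h1 := PG_split h (RR a c ∩ GG a c) (eX c)
  have e1 : RR a c ∩ GG a c ∩ eX c = eX c ∩ RR a c ∩ GG a c := by
    ext G; simp only [Set.mem_inter_iff]; tauto
  have e2 : RR a c ∩ GG a c ∩ (eX c)ᶜ = (eX c)ᶜ ∩ RR a c ∩ GG a c := by
    ext G; simp only [Set.mem_inter_iff, Set.mem_compl_iff]; tauto
  rw [e1, e2, i2_BB h hl, i2_RA h hl] at h1
  linarith

/-- the bound of the second term -/
theorem i2_aux (h : WallLaw p (1 / 1000) l w W) (hl : l ≤ 1 / 10000) (a : Fin 3) (c : Cb) :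
    PG w W (eXX a c ∩ eX c ∩ (RR a c ∩ GG a c)) * Dd w W (fl a c) ≤
      gg w W a c * (BB w W a c - RA w W a c) * Hd w W (fl a c) + l := by
  have hsat : Sat (({vX c} ∪ {vX (fl a c)}) ∪ i2_S a c : Set AV) :=
    ((sat_X c).union (sat_X _)).union (i2_satS a c)
  have hd : Disjoint (({vX c} ∪ {vX (fl a c)}) ∪ i2_S a c : Set AV) (blk (fl a c)) := by
    rw [Set.disjoint_union_left, Set.disjoint_union_left]
    refine ⟨⟨disj_X_blk _ _, disj_X_blk _ _⟩, ?_⟩
    refine (i2_disjSS a c).mono_right ?_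
    intro x hx; exact Or.inl (Or.inl hx)
  have dep1 : DepOn (({vX c} ∪ {vX (fl a c)}) ∪ i2_S a c : Set AV)
      (eXX a c ∩ eX c ∩ (RR a c ∩ GG a c)) := by
    refine DepOn.inter (DepOn.inter ((dep_eXX a c).mono ?_) ((i2_depX a c).mono ?_))
      (DepOn.inter ((i2_depRR a c).mono ?_) ((i2_depGG a c).mono ?_))
    · intro x hx; exact Or.inl hx
    · rintro x (hx | hx)
      · exact Or.inl (Or.inl hx)
      · exact Or.inr hx
    · intro x hx; exact Or.inr hx
    · intro x hx; exact Or.inr hx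
  have h1 := PG_inter h hsat (sat_blk (fl a c)) hd dep1 (dep_eL (fl a c))
  have h2 : PG w W (eXX a c ∩ eX c ∩ (RR a c ∩ GG a c) ∩ eL (fl a c)) ≤
      PG w W ((eX c ∩ RR a c ∩ GG a c) ∩ ((eX (fl a c))ᶜ ∩ eL (fl a c))) + l := by
    refine PG_le_leak h ?_
    rintro G ⟨⟨⟨hO, hE⟩, hR, hG⟩, hL⟩
    by_cases hE' : G ∈ eX (fl a c)
    · exact Or.inr (leak_XX a c ⟨⟨⟨⟨⟨hR, hG⟩, hE⟩, hO⟩, hE'⟩, hL⟩)
    · exact Or.inl ⟨⟨⟨hE, hR⟩, hG⟩, hE', hL⟩
  have hsat3 : Sat ({vX c} ∪ i2_S a c : Set AV) := (sat_X c).union (i2_satS a c)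
  have hsat4 : Sat ({vX (fl a c)} ∪ blk (fl a c) : Set AV) := (sat_X _).union (sat_blk _)
  have hd3 : Disjoint ({vX c} ∪ i2_S a c : Set AV) ({vX (fl a c)} ∪ blk (fl a c) : Set AV) := by
    rw [Set.disjoint_union_left, Set.disjoint_union_right, Set.disjoint_union_right]
    refine ⟨⟨i2_disjXX a c, disj_X_blk _ _⟩, (i2_disjXS a c _).symm, ?_⟩
    refine (i2_disjSS a c).mono_right ?_
    intro x hx; exact Or.inl (Or.inl hx)
  have dep3 : DepOn ({vX c} ∪ i2_S a c : Set AV) (eX c ∩ RR a c ∩ GG a c) := by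
    refine DepOn.inter (DepOn.inter (i2_depX a c) ((i2_depRR a c).mono ?_)) ((i2_depGG a c).mono ?_)
    · intro x hx; exact Or.inr hx
    · intro x hx; exact Or.inr hx
  have dep4 : DepOn ({vX (fl a c)} ∪ blk (fl a c) : Set AV) ((eX (fl a c))ᶜ ∩ eL (fl a c)) := by
    refine DepOn.inter (dep_eX _).compl ((dep_eL _).mono ?_)
    intro x hx; exact Or.inr hx
  have h3 := PG_inter h hsat3 hsat4 hd3 dep3 dep4
  rw [i2_EX h hl] at h3
  have e1 : PG w W (eL (fl a c)) = Dd w W (fl a c) := rfl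
  have e2 : PG w W ((eX (fl a c))ᶜ ∩ eL (fl a c)) = Hd w W (fl a c) := rfl
  rw [e1] at h1
  rw [e2] at h3
  rw [← h1]
  rw [h3] at h2
  exact h2

theorem i2_main (h : WallLaw p (1 / 1000) l w W) (hl : l ≤ 1 / 10000) (a : Fin 3) (c : Cb) :
    p * ((gg w W a c * BB w W a c) * (gg w W a (fl a c) * BB w W a (fl a c))) ≤
      (gg w W a c * RA w W a c) * (gg w W a (fl a c) * RA w W a (fl a c))
      + PG w W (eXX a c ∩ eX c ∩ (RR a c ∩ GG a c)) * (gg w W a (fl a c) * BB w W a (fl a c))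
      + PG w W (eXX a c ∩ eX (fl a c) ∩ (RR a (fl a c) ∩ GG a (fl a c))) *
        (gg w W a c * BB w W a c) := by
  set c' := fl a c with hc'
  have hSS := i2_disjSS a c
  rw [← hc'] at hSS
  have hXX := i2_disjXX a c
  rw [← hc'] at hXX
  have dR : DepOn (i2_S a c) (RR a c ∩ GG a c) := (i2_depRR a c).inter (i2_depGG a c)
  have dR' : DepOn (i2_S a c') (RR a c' ∩ GG a c') := (i2_depRR a c').inter (i2_depGG a c')
  -- product of three
  have hp1 := PG_inter h (i2_satS a c) (i2_satS a c') hSS dR dR'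
  have hp2 := PG_inter (A := ({vX c} ∪ {vX c'} : Set AV)) (B := i2_S a c ∪ i2_S a c')
    (U := eXX a c) (U' := (RR a c ∩ GG a c) ∩ (RR a c' ∩ GG a c')) h
    ((sat_X c).union (sat_X c')) ((i2_satS a c).union (i2_satS a c'))
    (by
      rw [Set.disjoint_union_left, Set.disjoint_union_right, Set.disjoint_union_right]
      exact ⟨⟨i2_disjXS _ _ _, i2_disjXS _ _ _⟩, i2_disjXS _ _ _, i2_disjXS _ _ _⟩)
    (dep_eXX a c)
    (DepOn.inter (dR.mono (fun x hx => Or.inl hx)) (dR'.mono (fun x hx => Or.inr hx)))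
  have hO : p ≤ PG w W (eXX a c) := h.xx a c
  have hb1 := i2_BB h hl a c
  have hb2 := i2_BB h hl a c'
  have hnn1 : 0 ≤ gg w W a c * BB w W a c := by rw [← hb1]; exact PG_nonneg h _
  have hnn2 : 0 ≤ gg w W a c' * BB w W a c' := by rw [← hb2]; exact PG_nonneg h _
  have hs1 : p * ((gg w W a c * BB w W a c) * (gg w W a c' * BB w W a c')) ≤
      PG w W (eXX a c ∩ ((RR a c ∩ GG a c) ∩ (RR a c' ∩ GG a c'))) := by
    rw [hp2, hp1, hb1, hb2]
    exact mul_le_mul_of_nonneg_right hO (mul_nonneg hnn1 hnn2)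
  -- the cover
  have hcov : eXX a c ∩ ((RR a c ∩ GG a c) ∩ (RR a c' ∩ GG a c')) ⊆
      (((eX c)ᶜ ∩ RR a c ∩ GG a c) ∩ ((eX c')ᶜ ∩ RR a c' ∩ GG a c') ∪
        (eXX a c ∩ eX c ∩ (RR a c ∩ GG a c)) ∩ (RR a c' ∩ GG a c')) ∪
        (eXX a c ∩ eX c' ∩ (RR a c' ∩ GG a c')) ∩ (RR a c ∩ GG a c) := by
    rintro G ⟨hO, ⟨hR, hG⟩, hR', hG'⟩
    by_cases hE : G ∈ eX c
    · exact Or.inl (Or.inr ⟨⟨⟨hO, hE⟩, hR, hG⟩, hR', hG'⟩)
    · by_cases hE' : G ∈ eX c'
      · exact Or.inr ⟨⟨⟨hO, hE'⟩, hR', hG'⟩, hR, hG⟩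
      · exact Or.inl (Or.inl ⟨⟨⟨hE, hR⟩, hG⟩, ⟨hE', hR'⟩, hG'⟩)
  have hs2 := (PG_mono h hcov).trans
    ((PG_union_le h _ _).trans (add_le_add_left (PG_union_le h _ _) _))
  -- first term
  have d1 : DepOn ({vX c} ∪ i2_S a c : Set AV) ((eX c)ᶜ ∩ RR a c ∩ GG a c) := by
    refine DepOn.inter (DepOn.inter (i2_depX a c).compl ((i2_depRR a c).mono ?_))
      ((i2_depGG a c).mono ?_)
    · intro x hx; exact Or.inr hx
    · intro x hx; exact Or.inr hx
  have d1' : DepOn ({vX c'} ∪ i2_S a c' : Set AV) ((eX c')ᶜ ∩ RR a c' ∩ GG a c') := by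
    refine DepOn.inter (DepOn.inter (i2_depX a c').compl ((i2_depRR a c').mono ?_))
      ((i2_depGG a c').mono ?_)
    · intro x hx; exact Or.inr hx
    · intro x hx; exact Or.inr hx
  have ht1 := PG_inter h ((sat_X c).union (i2_satS a c)) ((sat_X c').union (i2_satS a c'))
    (by
      rw [Set.disjoint_union_left, Set.disjoint_union_right, Set.disjoint_union_right]
      exact ⟨⟨hXX, i2_disjXS _ _ _⟩, (i2_disjXS _ _ _).symm, hSS⟩) d1 d1'
  rw [i2_RA h hl a c, i2_RA h hl a c'] at ht1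
  -- second term
  have d2 : DepOn (({vX c} ∪ {vX c'}) ∪ i2_S a c : Set AV)
      (eXX a c ∩ eX c ∩ (RR a c ∩ GG a c)) := by
    refine DepOn.inter (DepOn.inter ((dep_eXX a c).mono ?_) ((i2_depX a c).mono ?_))
      (dR.mono ?_)
    · intro x hx; exact Or.inl hx
    · rintro x (hx | hx)
      · exact Or.inl (Or.inl hx)
      · exact Or.inr hx
    · intro x hx; exact Or.inr hx
  have ht2 := PG_inter h (((sat_X c).union (sat_X c')).union (i2_satS a c)) (i2_satS a c')
    (by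
      rw [Set.disjoint_union_left, Set.disjoint_union_left]
      exact ⟨⟨i2_disjXS _ _ _, i2_disjXS _ _ _⟩, hSS⟩) d2 dR'
  rw [hb2] at ht2
  -- third term
  have d3 : DepOn (({vX c} ∪ {vX c'}) ∪ i2_S a c' : Set AV)
      (eXX a c ∩ eX c' ∩ (RR a c' ∩ GG a c')) := by
    refine DepOn.inter (DepOn.inter ((dep_eXX a c).mono ?_) ((i2_depX a c').mono ?_))
      (dR'.mono ?_)
    · intro x hx; exact Or.inl hx
    · rintro x (hx | hx)
      · exact Or.inl (Or.inr hx)
      · exact Or.inr hx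
    · intro x hx; exact Or.inr hx
  have ht3 := PG_inter h (((sat_X c).union (sat_X c')).union (i2_satS a c')) (i2_satS a c)
    (by
      rw [Set.disjoint_union_left, Set.disjoint_union_left]
      exact ⟨⟨i2_disjXS _ _ _, i2_disjXS _ _ _⟩, hSS.symm⟩) d3 dR
  rw [hb1] at ht3
  rw [ht1, ht2, ht3] at hs2
  exact hs1.trans hs2

end prod

theorem ineq_two {Ω : Type} [Fintype Ω] {p l : ℝ} {w : Ω → ℝ} {W : Ω → SimpleGraph AV}
    (h : WallLaw p (1 / 1000) l w W) (h0 : 0 ≤ l) (hl : l ≤ 1 / 10000) (a : Fin 3) (c : Cb) :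
    p * (BB w W a c * BB w W a (fl a c)) ≤
      RA w W a c * RA w W a (fl a c)
      + (BB w W a c - RA w W a c) * BB w W a (fl a c) * (Hd w W (fl a c) / Dd w W (fl a c))
      + (BB w W a (fl a c) - RA w W a (fl a c)) * BB w W a c * (Hd w W c / Dd w W c) + 40 * l := by
  have hm := i2_main h hl a c
  have ha := i2_aux h hl a c
  have hb := i2_aux h hl a (fl a c)
  rw [fl_fl, eXX_symm] at hb
  have hg := gg_bounds h hl a c
  have hg' := gg_bounds h hl a (fl a c)
  have hB := num_BB h h0 hl a c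
  have hB' := num_BB h h0 hl a (fl a c)
  have hD := num_Dd h hl c
  have hD' := num_Dd h hl (fl a c)
  have hs := sc_bounds
  set g := gg w W a c
  set g' := gg w W a (fl a c)
  set B := BB w W a c
  set B' := BB w W a (fl a c)
  set R := RA w W a c
  set R' := RA w W a (fl a c)
  set D := Dd w W c
  set D' := Dd w W (fl a c)
  set H := Hd w W c
  set H' := Hd w W (fl a c)
  set T := PG w W (eXX a c ∩ eX c ∩ (RR a c ∩ GG a c))
  set T' := PG w W (eXX a c ∩ eX (fl a c) ∩ (RR a (fl a c) ∩ GG a (fl a c)))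
  have hgp : 0 < g := by linarith [hg.1]
  have hgp' : 0 < g' := by linarith [hg'.1]
  have hDp : 0.36 < D := by linarith [hD.1, hs.2]
  have hDp' : 0.36 < D' := by linarith [hD'.1, hs.2]
  have hBp : 0 ≤ B := by linarith [hB.1, hs.1]
  have hBp' : 0 ≤ B' := by linarith [hB'.1, hs.1]
  have hB1 : B ≤ 1 := by linarith [hB.2, hs.2]
  have hB1' : B' ≤ 1 := by linarith [hB'.2, hs.2]
  have hDpos : 0 < D := by linarith
  have hDpos' : 0 < D' := by linarith
  -- T ≤ (g (B - R) H' + l) / D'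
  have hT : T ≤ (g * (B - R) * H' + l) / D' := by
    rw [le_div_iff₀ hDpos']; exact ha
  have hT' : T' ≤ (g' * (B' - R') * H + l) / D := by
    rw [le_div_iff₀ hDpos]; exact hb
  have hq : ∀ x y : ℝ, 0.4 ≤ x → 0.36 < y → l / y / x ≤ 20 * l := by
    intro x y hx hy
    have hx0 : 0 < x := by linarith
    have hy0 : 0 < y := by linarith
    rw [div_div, div_le_iff₀ (mul_pos hy0 hx0)]
    have : 1 ≤ 20 * (y * x) := by nlinarith
    nlinarith [mul_le_mul_of_nonneg_left this h0]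
  -- divide the main inequality by g g'
  have h1 : p * (B * B') ≤ R * R' + T / g * B' + T' / g' * B := by
    have hgg : 0 < g * g' := mul_pos hgp hgp'
    have e : (R * R' + T / g * B' + T' / g' * B) * (g * g') =
        (g * R) * (g' * R') + T * (g' * B') + T' * (g * B) := by
      field_simp
    have e' : p * (B * B') * (g * g') = p * ((g * B) * (g' * B')) := by ring
    have : p * (B * B') * (g * g') ≤ (R * R' + T / g * B' + T' / g' * B) * (g * g') := by
      rw [e, e']; exact hm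
    exact le_of_mul_le_mul_right this hgg
  have h2 : T / g * B' ≤ (B - R) * B' * (H' / D') + 20 * l := by
    have : T / g ≤ (B - R) * (H' / D') + l / D' / g := by
      rw [div_le_iff₀ hgp]
      have e : ((B - R) * (H' / D') + l / D' / g) * g = (g * (B - R) * H' + l) / D' := by
        field_simp
      rw [e]; exact hT
    have h3 := mul_le_mul_of_nonneg_right this hBp'
    have h4 := hq g D' hg.1 hDp'
    have h5 : l / D' / g * B' ≤ 20 * l := by
      have : 0 ≤ l / D' / g := by positivity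
      calc l / D' / g * B' ≤ l / D' / g * 1 := mul_le_mul_of_nonneg_left hB1' this
        _ ≤ 20 * l := by rw [mul_one]; exact h4
    calc T / g * B' ≤ ((B - R) * (H' / D') + l / D' / g) * B' := h3
      _ = (B - R) * B' * (H' / D') + l / D' / g * B' := by ring
      _ ≤ _ := by linarith
  have h2' : T' / g' * B ≤ (B' - R') * B * (H / D) + 20 * l := by
    have : T' / g' ≤ (B' - R') * (H / D) + l / D / g' := by
      rw [div_le_iff₀ hgp']
      have e : ((B' - R') * (H / D) + l / D / g') * g' = (g' * (B' - R') * H + l) / D := by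
        field_simp
      rw [e]; exact hT'
    have h3 := mul_le_mul_of_nonneg_right this hBp
    have h4 := hq g' D hg'.1 hDp
    have h5 : l / D / g' * B ≤ 20 * l := by
      have : 0 ≤ l / D / g' := by positivity
      calc l / D / g' * B ≤ l / D / g' * 1 := mul_le_mul_of_nonneg_left hB1 this
        _ ≤ 20 * l := by rw [mul_one]; exact h4
    calc T' / g' * B ≤ ((B' - R') * (H / D) + l / D / g') * B := h3
      _ = (B' - R') * B * (H / D) + l / D / g' * B := by ring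
      _ ≤ _ := by linarith
  linarith

end Pool.Agent.LPW
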