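import Pool.Agent.LPW.Num

/-!
# LPW: inequality (III) for the edge `vY c - vY (fl a c)`

`c' = fl a c`, `O = eY a c`, `G = GG a c ∩ GG a c'`, `R = RR a c`, `R' = RR a c'`, `M`, `M'`.  By independence
`p gg gg' ≤ P (O ∩ G)` (`O` lives on `vY c`, `vY c'`; `GG a c ∩ GG a c'` on the blocks of the four neighbours).
`P (O ∩ G) = P (O R R' G) + P (O R R'ᶜ G) + P (O Rᶜ R' G) + P (O Rᶜ R'ᶜ G)`, and
`P (O R R' G) = P (R G_c) P (R' G_c') - P (Oᶜ R R' G)`, same for the complements,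
`P (O R R'ᶜ G) ≤ P (O R M' G) + l` since `R'ᶜ \ M' = R'ᶜ ∩ eL'` and `leak_YY`; the other mixed term by symmetry
(`eY_symm`, `fl_fl`).  Divide by `gg gg' ≥ 0.16`.
-/

set_option autoImplicit false

open Finset
open scoped Classical

namespace Pool.Agent.LPW

open Pool.Agent.OIP

private theorem i3_union_disj {A B C A' B' C' : Set AV}
    (h1 : Disjoint A A') (h2 : Disjoint A B') (h3 : Disjoint A C')
    (h4 : Disjoint B A') (h5 : Disjoint B B') (h6 : Disjoint B C')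
    (h7 : Disjoint C A') (h8 : Disjoint C B') (h9 : Disjoint C C') :
    Disjoint (A ∪ B ∪ C) (A' ∪ B' ∪ C') := by
  simp only [Set.disjoint_union_left, Set.disjoint_union_right]
  tauto

/-- `RR a c` and `GG a c` depend on three blocks -/
private theorem i3_dep_RR (a : Fin 3) (c : Cb) :
    DepOn (blk c ∪ blk (fl (a + 1) c) ∪ blk (fl (a + 2) c)) (RR a c) := by
  unfold RR
  refine DepOn.union (DepOn.union ?_ ?_) ?_
  · exact (dep_eK c).mono (fun x hx => Or.inl (Or.inl hx))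
  · exact (dep_eY (a + 1) c).mono (fun x hx => Or.inl hx)
  · refine (dep_eY (a + 2) c).mono ?_
    rintro x (hx | hx)
    · exact Or.inl (Or.inl hx)
    · exact Or.inr hx

private theorem i3_dep_GG (a : Fin 3) (c : Cb) :
    DepOn (blk c ∪ blk (fl (a + 1) c) ∪ blk (fl (a + 2) c)) (GG a c) := by
  unfold GG
  refine DepOn.inter ?_ ?_
  · exact (dep_eK _).mono (fun x hx => Or.inl (Or.inr hx))
  · exact (dep_eK _).mono (fun x hx => Or.inr hx)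

private theorem i3_dep_GG' (a : Fin 3) (c : Cb) :
    DepOn (blk (fl (a + 1) c) ∪ blk (fl (a + 2) c)) (GG a c) := by
  unfold GG
  refine DepOn.inter ?_ ?_
  · exact (dep_eK _).mono (fun x hx => Or.inl hx)
  · exact (dep_eK _).mono (fun x hx => Or.inr hx)

private theorem i3_sat (a : Fin 3) (c : Cb) :
    Sat (blk c ∪ blk (fl (a + 1) c) ∪ blk (fl (a + 2) c)) :=
  ((sat_blk _).union (sat_blk _)).union (sat_blk _)

private theorem i3_ne (a : Fin 3) (c : Cb) {i j : ℕ} {x y : Cb}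
    (hx : [c, fl a c, fl (a + 1) c, fl (a + 2) c, fl (a + 1) (fl a c), fl (a + 2) (fl a c)][i]? = some x)
    (hy : [c, fl a c, fl (a + 1) c, fl (a + 2) c, fl (a + 1) (fl a c), fl (a + 2) (fl a c)][j]? = some y)
    (hij : i ≠ j) : Disjoint (blk x) (blk y) := by
  refine disj_blk ?_
  rintro rfl
  have h := fl_edge a c
  rw [List.getElem?_eq_some_iff] at hx hy
  obtain ⟨h1, h2⟩ := hx
  obtain ⟨h3, h4⟩ := hy
  exact hij ((h.getElem_inj_iff).1 (h2.trans h4.symm))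

/-- the two sides of the edge are on disjoint sets of blocks -/
private theorem i3_disj_sides (a : Fin 3) (c : Cb) :
    Disjoint (blk c ∪ blk (fl (a + 1) c) ∪ blk (fl (a + 2) c))
      (blk (fl a c) ∪ blk (fl (a + 1) (fl a c)) ∪ blk (fl (a + 2) (fl a c))) := by
  refine i3_union_disj ?_ ?_ ?_ ?_ ?_ ?_ ?_ ?_ ?_
  · exact i3_ne a c (i := 0) (j := 1) rfl rfl (by decide)
  · exact i3_ne a c (i := 0) (j := 4) rfl rfl (by decide)
  · exact i3_ne a c (i := 0) (j := 5) rfl rfl (by decide)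
  · exact i3_ne a c (i := 2) (j := 1) rfl rfl (by decide)
  · exact i3_ne a c (i := 2) (j := 4) rfl rfl (by decide)
  · exact i3_ne a c (i := 2) (j := 5) rfl rfl (by decide)
  · exact i3_ne a c (i := 3) (j := 1) rfl rfl (by decide)
  · exact i3_ne a c (i := 3) (j := 4) rfl rfl (by decide)
  · exact i3_ne a c (i := 3) (j := 5) rfl rfl (by decide)

private theorem i3_disj_edge (a : Fin 3) (c : Cb) :
    Disjoint (blk c ∪ blk (fl a c))
      ((blk (fl (a + 1) c) ∪ blk (fl (a + 2) c)) ∪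
        (blk (fl (a + 1) (fl a c)) ∪ blk (fl (a + 2) (fl a c)))) := by
  have h1 := i3_ne a c (i := 0) (j := 2) rfl rfl (by decide)
  have h2 := i3_ne a c (i := 0) (j := 3) rfl rfl (by decide)
  have h3 := i3_ne a c (i := 0) (j := 4) rfl rfl (by decide)
  have h4 := i3_ne a c (i := 0) (j := 5) rfl rfl (by decide)
  have h5 := i3_ne a c (i := 1) (j := 2) rfl rfl (by decide)
  have h6 := i3_ne a c (i := 1) (j := 3) rfl rfl (by decide)
  have h7 := i3_ne a c (i := 1) (j := 4) rfl rfl (by decide)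
  have h8 := i3_ne a c (i := 1) (j := 5) rfl rfl (by decide)
  simp only [Set.disjoint_union_left, Set.disjoint_union_right]
  exact ⟨⟨⟨h1, h5⟩, ⟨h2, h6⟩⟩, ⟨⟨h3, h7⟩, ⟨h4, h8⟩⟩⟩

/-- `MM` is the complement of `RR` and of `eL` -/
private theorem i3_MM (a : Fin 3) (c : Cb) : (RR a c)ᶜ ∩ (eL c)ᶜ ⊆ MM a c := by
  intro x hx
  obtain ⟨h1, h2⟩ := hx
  simp only [RR, Set.mem_compl_iff, Set.mem_union, not_or] at h1
  exact ⟨⟨⟨h1.1.1, h2⟩, h1.1.2⟩, h1.2⟩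

theorem ineq_three {Ω : Type} [Fintype Ω] {p l : ℝ} {w : Ω → ℝ} {W : Ω → SimpleGraph AV}
    (h : WallLaw p (1 / 1000) l w W) (h0 : 0 ≤ l) (hl : l ≤ 1 / 10000) (a : Fin 3) (c : Cb) :
    p ≤ BB w W a c * BB w W a (fl a c) + (1 - BB w W a c) * (1 - BB w W a (fl a c))
      + Ge w W a c + 40 * l := by
  have hg := gg_bounds h hl a c
  have hg' := gg_bounds h hl a (fl a c)
  have e1 : PG w W (eY a c ∩ (GG a c ∩ GG a (fl a c))) =
      PG w W (eY a c) * PG w W (GG a c ∩ GG a (fl a c)) := by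
    refine PG_inter h (A := blk c ∪ blk (fl a c))
      (B := (blk (fl (a + 1) c) ∪ blk (fl (a + 2) c)) ∪
        (blk (fl (a + 1) (fl a c)) ∪ blk (fl (a + 2) (fl a c)))) ((sat_blk _).union (sat_blk _))
      (((sat_blk _).union (sat_blk _)).union ((sat_blk _).union (sat_blk _)))
      (i3_disj_edge a c) (dep_eY a c) ?_
    exact DepOn.inter ((i3_dep_GG' a c).mono Set.subset_union_left)
      ((i3_dep_GG' a (fl a c)).mono Set.subset_union_right)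
  have hprod : ∀ U U' : Set (SimpleGraph AV),
      DepOn (blk c ∪ blk (fl (a + 1) c) ∪ blk (fl (a + 2) c)) U →
      DepOn (blk (fl a c) ∪ blk (fl (a + 1) (fl a c)) ∪ blk (fl (a + 2) (fl a c))) U' →
      PG w W (U ∩ U') = PG w W U * PG w W U' := fun U U' hU hU' =>
    PG_inter h (i3_sat a c) (i3_sat a (fl a c)) (i3_disj_sides a c) hU hU'
  have e2 := hprod (GG a c) (GG a (fl a c)) (i3_dep_GG a c) (i3_dep_GG a (fl a c))
  have e3 := hprod (RR a c ∩ GG a c) (RR a (fl a c) ∩ GG a (fl a c))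
    ((i3_dep_RR a c).inter (i3_dep_GG a c)) ((i3_dep_RR a (fl a c)).inter (i3_dep_GG a (fl a c)))
  have e4 := hprod ((RR a c)ᶜ ∩ GG a c) ((RR a (fl a c))ᶜ ∩ GG a (fl a c))
    ((i3_dep_RR a c).compl.inter (i3_dep_GG a c))
    ((i3_dep_RR a (fl a c)).compl.inter (i3_dep_GG a (fl a c)))
  have hyy : p ≤ PG w W (eY a c) := h.yy a c
  have l1 : PG w W (eY a c ∩ RR a c ∩ (RR a (fl a c))ᶜ ∩ (GG a c ∩ GG a (fl a c))) ≤
      PG w W (eY a c ∩ RR a c ∩ MM a (fl a c) ∩ (GG a c ∩ GG a (fl a c))) + l := by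
    refine PG_le_leak h ?_
    rintro x ⟨⟨⟨x1, x2⟩, x3⟩, x4, x5⟩
    by_cases x6 : x ∈ eL (fl a c)
    · exact Or.inr (leak_YY a c ⟨⟨⟨x2, x4⟩, x1⟩, x6⟩)
    · exact Or.inl ⟨⟨⟨x1, x2⟩, i3_MM a (fl a c) ⟨x3, x6⟩⟩, x4, x5⟩
  have l2 : PG w W (eY a c ∩ (RR a c)ᶜ ∩ RR a (fl a c) ∩ (GG a c ∩ GG a (fl a c))) ≤
      PG w W (eY a c ∩ MM a c ∩ RR a (fl a c) ∩ (GG a c ∩ GG a (fl a c))) + l := by
    refine PG_le_leak h ?_
    rintro x ⟨⟨⟨x1, x2⟩, x3⟩, x4, x5⟩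
    by_cases x6 : x ∈ eL c
    · refine Or.inr (leak_YY a (fl a c) ⟨⟨⟨x3, x5⟩, ?_⟩, ?_⟩)
      · rw [eY_symm]; exact x1
      · rw [fl_fl]; exact x6
    · exact Or.inl ⟨⟨⟨x1, i3_MM a c ⟨x2, x6⟩⟩, x3⟩, x4, x5⟩
  have s0 : ∀ O R R' G1 G2 : Set (SimpleGraph AV),
      PG w W (O ∩ (G1 ∩ G2)) = PG w W (O ∩ R ∩ R' ∩ (G1 ∩ G2)) + PG w W (O ∩ R ∩ R'ᶜ ∩ (G1 ∩ G2)) +
        PG w W (O ∩ Rᶜ ∩ R' ∩ (G1 ∩ G2)) + PG w W (O ∩ Rᶜ ∩ R'ᶜ ∩ (G1 ∩ G2)) := by
    intro O R R' G1 G2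
    have a1 := PG_split h (O ∩ (G1 ∩ G2)) R
    have a2 := PG_split h (O ∩ (G1 ∩ G2) ∩ R) R'
    have a3 := PG_split h (O ∩ (G1 ∩ G2) ∩ Rᶜ) R'
    have b1 : O ∩ (G1 ∩ G2) ∩ R ∩ R' = O ∩ R ∩ R' ∩ (G1 ∩ G2) := by
      ext x; simp only [Set.mem_inter_iff]; tauto
    have b2 : O ∩ (G1 ∩ G2) ∩ R ∩ R'ᶜ = O ∩ R ∩ R'ᶜ ∩ (G1 ∩ G2) := by
      ext x; simp only [Set.mem_inter_iff]; tauto
    have b3 : O ∩ (G1 ∩ G2) ∩ Rᶜ ∩ R' = O ∩ Rᶜ ∩ R' ∩ (G1 ∩ G2) := by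
      ext x; simp only [Set.mem_inter_iff]; tauto
    have b4 : O ∩ (G1 ∩ G2) ∩ Rᶜ ∩ R'ᶜ = O ∩ Rᶜ ∩ R'ᶜ ∩ (G1 ∩ G2) := by
      ext x; simp only [Set.mem_inter_iff]; tauto
    rw [b1, b2] at a2
    rw [b3, b4] at a3
    linarith
  have s1 : ∀ O R R' G1 G2 : Set (SimpleGraph AV),
      PG w W (O ∩ R ∩ R' ∩ (G1 ∩ G2)) + PG w W (Oᶜ ∩ R ∩ R' ∩ (G1 ∩ G2)) =
        PG w W ((R ∩ G1) ∩ (R' ∩ G2)) := by
    intro O R R' G1 G2
    have a1 := PG_split h ((R ∩ G1) ∩ (R' ∩ G2)) O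
    have b1 : (R ∩ G1) ∩ (R' ∩ G2) ∩ O = O ∩ R ∩ R' ∩ (G1 ∩ G2) := by
      ext x; simp only [Set.mem_inter_iff]; tauto
    have b2 : (R ∩ G1) ∩ (R' ∩ G2) ∩ Oᶜ = Oᶜ ∩ R ∩ R' ∩ (G1 ∩ G2) := by
      ext x; simp only [Set.mem_inter_iff]; tauto
    rw [b1, b2] at a1
    exact a1
  have s2 : ∀ R G1 : Set (SimpleGraph AV), PG w W (Rᶜ ∩ G1) = PG w W G1 - PG w W (R ∩ G1) := by
    intro R G1
    have a1 := PG_split h G1 R
    rw [Set.inter_comm G1 R, Set.inter_comm G1 Rᶜ] at a1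
    linarith
  have t0 := s0 (eY a c) (RR a c) (RR a (fl a c)) (GG a c) (GG a (fl a c))
  have t1 := s1 (eY a c) (RR a c) (RR a (fl a c)) (GG a c) (GG a (fl a c))
  have t2 := s1 (eY a c) (RR a c)ᶜ (RR a (fl a c))ᶜ (GG a c) (GG a (fl a c))
  rw [e3] at t1
  rw [e4, s2 (RR a c) (GG a c), s2 (RR a (fl a c)) (GG a (fl a c))] at t2
  rw [e1, e2] at t0
  have hgd : gg w W a c = PG w W (GG a c) := rfl
  have hgd' : gg w W a (fl a c) = PG w W (GG a (fl a c)) := rfl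
  rw [← hgd, ← hgd'] at t0 t2
  have hB : PG w W (RR a c ∩ GG a c) = BB w W a c * gg w W a c := by
    unfold BB
    rw [div_mul_cancel₀]
    linarith [hg.1]
  have hB' : PG w W (RR a (fl a c) ∩ GG a (fl a c)) = BB w W a (fl a c) * gg w W a (fl a c) := by
    unfold BB
    rw [div_mul_cancel₀]
    linarith [hg'.1]
  rw [hB, hB'] at t1 t2
  have hgpos : 0 < gg w W a c := by linarith [hg.1]
  have hgpos' : 0 < gg w W a (fl a c) := by linarith [hg'.1]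
  have hGG : 0 < gg w W a c * gg w W a (fl a c) := mul_pos hgpos hgpos'
  have hGe : PG w W (eY a c ∩ RR a c ∩ MM a (fl a c) ∩ (GG a c ∩ GG a (fl a c)))
    + PG w W (eY a c ∩ MM a c ∩ RR a (fl a c) ∩ (GG a c ∩ GG a (fl a c)))
    - PG w W ((eY a c)ᶜ ∩ RR a c ∩ RR a (fl a c) ∩ (GG a c ∩ GG a (fl a c)))
    - PG w W ((eY a c)ᶜ ∩ (RR a c)ᶜ ∩ (RR a (fl a c))ᶜ ∩ (GG a c ∩ GG a (fl a c))) =
      Ge w W a c * (gg w W a c * gg w W a (fl a c)) := by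
    unfold Ge
    rw [div_mul_cancel₀]
    exact hGG.ne'
  set g := gg w W a c with hgdef
  set g' := gg w W a (fl a c) with hgdef'
  set B := BB w W a c
  set B' := BB w W a (fl a c)
  set Gv := Ge w W a c
  have hgg : 0.16 ≤ g * g' := by
    have := mul_le_mul hg.1 hg'.1 (by norm_num) (by linarith)
    norm_num at this ⊢
    linarith
  have hp : p * (g * g') ≤ PG w W (eY a c) * (g * g') :=
    mul_le_mul_of_nonneg_right hyy hGG.le
  have hfin : p * (g * g') ≤ (B * B' + (1 - B) * (1 - B') + Gv + 40 * l) * (g * g') := by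
    have h2l : 2 * l ≤ 40 * l * (g * g') := by nlinarith
    nlinarith [t0, t1, t2, l1, l2, hGe, hp, h2l]
  exact le_of_mul_le_mul_right hfin hGG

end Pool.Agent.LPW
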