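import Pool.Agent.LPW.I1
import Pool.Agent.LPW.I2
import Pool.Agent.LPW.I3
import Pool.Agent.LPW.Ex
import Pool.Agent.LPW.Alg

/-!
# LPW: the abstract wall theorem
-/

set_option autoImplicit false

open Finset
open scoped Classical

namespace Pool.Agent.LPW

open Pool.Agent.OIP

theorem wall_main {Ω : Type} [Fintype Ω] {p l : ℝ} {w : Ω → ℝ} {W : Ω → SimpleGraph AV}
    (h : WallLaw p (1 / 1000) l w W) (hp : pc ≤ p) (h0 : 0 ≤ l) : p ≤ pc + 10000 * l := by
  have hp1 : p ≤ 1 := (h.xy (fun _ => false)).trans (PG_le_one h (eX fun _ => false))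
  rcases le_or_gt l (1 / 10000) with hl | hl
  · obtain ⟨a, c, hG⟩ := exists_Ge_le h h0 hl
    have hB := num_BB h h0 hl a c
    have hB' := num_BB h h0 hl a (fl a c)
    have hD := num_Dd h hl c
    have hD' := num_Dd h hl (fl a c)
    have hH := num_Hd h c
    have hH' := num_Hd h (fl a c)
    have hR := num_RA h hl a c
    have hR' := num_RA h hl a (fl a c)
    have h3 := ineq_three h h0 hl a c
    exact wall_alg hp hp1 h0 hl hB.1 hB.2 hB'.1 hB'.2 hD.1 hD.2 hD'.1 hD'.2 hH.1 hH.2 hH'.1 hH'.2 hR.1 hR.2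
      hR'.1 hR'.2 (ineq_one h h0 hl a c) (ineq_one h h0 hl a (fl a c)) (ineq_two h h0 hl a c) (by linarith)
  · have := pc_bounds.1
    linarith

end Pool.Agent.LPW
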