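import Pool.Agent.LPW.Cond1
import Pool.Agent.LPW.Main

/-!
# LPW: the wall inequality after conditioning on the sheets, conclusion

Apply `wall_main` to the weights `w' ω = w ω / P (F)` if `W ω ∈ F c` for all `c`, `0` otherwise (`cw`), the random
graph `act q (W ω)`, and `l = lam / ∏ P (F c)` (`pr_F`).  Independence: `cond_indep`.  The edges `X-X`, `Y-Y`, `X-Y` lie
outside the sheets, so by independence (`act_dep` is not needed, `depOn_adj`) their conditional probabilities are the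
unconditional ones; if `W ω` has the edge then `act q (W ω)` has it.  For `Y c - K c`:
`P (Y c - K c, all F) = P (Y c - K c, F c) * ∏_{d ≠ c} P (F d)` (the union of the sheets of the `d ≠ c` is disjoint from
`{y c} ∪ sh c`), same for `Y c - L c` and for `cl`.
-/

set_option autoImplicit false

open Finset
open scoped Classical

namespace Pool.Agent.LPW

open Pool.Agent.OIP

variable {Ω V : Type} [Fintype Ω]

/-- probabilities under the conditional weights -/
private theorem cond_cw_pr (w : Ω → ℝ) (W : Ω → SimpleGraph V) (F : Set (SimpleGraph V)) (U : Set Ω) :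
    pr (cw w W F) U = pr w {ω | W ω ∈ F ∧ ω ∈ U} / pr w {ω | W ω ∈ F} := by
  unfold pr
  rw [Finset.sum_div]
  refine Finset.sum_congr rfl fun ω _ => ?_
  by_cases h1 : ω ∈ U
  · by_cases h2 : W ω ∈ F
    · have h3 : ω ∈ {ω | W ω ∈ F ∧ ω ∈ U} := ⟨h2, h1⟩
      rw [Set.indicator_of_mem h1, Set.indicator_of_mem h3]
      unfold cw
      rw [if_pos h2]
      rfl
    · have h3 : ω ∉ {ω | W ω ∈ F ∧ ω ∈ U} := fun h => h2 h.1
      rw [Set.indicator_of_mem h1, Set.indicator_of_notMem h3]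
      unfold cw
      rw [if_neg h2, zero_div]
  · have h3 : ω ∉ {ω | W ω ∈ F ∧ ω ∈ U} := fun h => h1 h.2
    rw [Set.indicator_of_notMem h1, Set.indicator_of_notMem h3, zero_div]

/-- events outside all sheets are independent of the sheets -/
private theorem cond_out {w : Ω → ℝ} {W : Ω → SimpleGraph V} (hi : OneIndep w W) {q : Plc V}
    {F : Cb → Set (SimpleGraph V)} (hF : ∀ c, DepOn (q.sh c) (F c)) {T : Set V}
    {E : Set (SimpleGraph V)} (hE : DepOn T E) (hT : ∀ c, Disjoint (q.sh c) T) :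
    pr w {ω | W ω ∈ {G : SimpleGraph V | ∀ c, G ∈ F c} ∧ W ω ∈ E} =
      pr w {ω | W ω ∈ {G : SimpleGraph V | ∀ c, G ∈ F c}} * pr w {ω | W ω ∈ E} := by
  refine hi (⋃ c, q.sh c) T ?_ _ _ ?_ hE
  · rw [Set.disjoint_iUnion_left]
    exact hT
  · exact depOn_of_forall F fun c => (hF c).mono (Set.subset_iUnion q.sh c)

/-- events at the sheet of `c` are independent of the other sheets -/
private theorem cond_in {w : Ω → ℝ} {W : Ω → SimpleGraph V} (hi : OneIndep w W) {q : Plc V}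
    (hq : PlcOK q) {F : Cb → Set (SimpleGraph V)} (hF : ∀ c, DepOn (q.sh c) (F c)) (c : Cb) {T : Set V}
    {E : Set (SimpleGraph V)} (hE : DepOn T E) (hT : ∀ d, d ≠ c → Disjoint (q.sh d) T) :
    pr w {ω | W ω ∈ {G : SimpleGraph V | ∀ c, G ∈ F c} ∧ W ω ∈ E} =
      pr w {ω | W ω ∈ F c ∧ W ω ∈ E} * pr w {ω | ∀ d, d ≠ c → W ω ∈ F d} := by
  have h1 := hi (q.sh c ∪ T) (⋃ d : {d : Cb // d ≠ c}, q.sh d.1) ?_ (F c ∩ E)
    {G : SimpleGraph V | ∀ d : {d : Cb // d ≠ c}, G ∈ F d.1} ?_ ?_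
  · have e1 : {ω | W ω ∈ {G : SimpleGraph V | ∀ c, G ∈ F c} ∧ W ω ∈ E} =
        {ω | W ω ∈ F c ∩ E ∧ W ω ∈ {G : SimpleGraph V | ∀ d : {d : Cb // d ≠ c}, G ∈ F d.1}} := by
      ext ω
      constructor
      · rintro ⟨h2, h3⟩
        exact ⟨⟨h2 c, h3⟩, fun d => h2 d.1⟩
      · rintro ⟨⟨h2, h3⟩, h4⟩
        refine ⟨fun d => ?_, h3⟩
        by_cases hd : d = c
        · rw [hd]; exact h2
        · exact h4 ⟨d, hd⟩
    have e2 : {ω | ∀ d, d ≠ c → W ω ∈ F d} =
        {ω | W ω ∈ {G : SimpleGraph V | ∀ d : {d : Cb // d ≠ c}, G ∈ F d.1}} := by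
      ext ω
      constructor
      · intro h2 d
        exact h2 d.1 d.2
      · intro h2 d hd
        exact h2 ⟨d, hd⟩
    rw [e1, e2, h1]
    rfl
  · rw [Set.disjoint_iUnion_right]
    rintro ⟨d, hd⟩
    rw [Set.disjoint_union_left]
    exact ⟨hq.disj c d (Ne.symm hd), (hT d hd).symm⟩
  · exact ((hF c).mono Set.subset_union_left).inter (hE.mono Set.subset_union_right)
  · exact depOn_of_forall (fun d : {d : Cb // d ≠ c} => F d.1) fun d =>
      (hF d.1).mono (Set.subset_iUnion (fun d : {d : Cb // d ≠ c} => q.sh d.1) d)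

/-- the hubs are not in the sheets -/
private theorem cond_disj_pair {S : Set V} {a b : V} (ha : a ∉ S) (hb : b ∉ S) :
    Disjoint S ({a, b} : Set V) := by
  rw [Set.disjoint_right]
  rintro v (h | h)
  · rw [h]; exact ha
  · rw [h]; exact hb

private theorem cond_act_of {q : Plc V} {G : SimpleGraph V} {u v : AV} (h : ActRel q G u v) (huv : u ≠ v) :
    (act q G).Adj u v := by
  unfold act
  rw [SimpleGraph.fromRel_adj]
  exact ⟨huv, Or.inl h⟩

private theorem cond_act_yl {q : Plc V} {G : SimpleGraph V} {c : Cb} (h : (act q G).Adj (vY c) (vL c)) :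
    G.Adj (q.y c) (q.l c) := by
  unfold act at h
  rw [SimpleGraph.fromRel_adj] at h
  rcases h.2 with h1 | h1
  · cases h1 with
    | yl _ h2 => exact h2
  · cases h1

private theorem cond_fst_ne {i j : Fin 4} {c d : Cb} (h : i ≠ j) : ((i, c) : AV) ≠ (j, d) :=
  fun h' => h (congrArg Prod.fst h')

theorem cond_main {w : Ω → ℝ} {W : Ω → SimpleGraph V} {p lam : ℝ} (hw : IsLaw w) (hi : OneIndep w W) {q : Plc V}
    (hq : PlcOK q) (hp : pc ≤ p)
    (hxx : ∀ (a : Fin 3) (c : Cb), p ≤ pr w {ω | (W ω).Adj (q.x c) (q.x (fl a c))})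
    (hyy : ∀ (a : Fin 3) (c : Cb), p ≤ pr w {ω | (W ω).Adj (q.y c) (q.y (fl a c))})
    (hxy : ∀ c : Cb, p ≤ pr w {ω | (W ω).Adj (q.x c) (q.y c)})
    {F : Cb → Set (SimpleGraph V)} (hF : ∀ c, DepOn (q.sh c) (F c)) (hpos : ∀ c, 0 < pr w {ω | W ω ∈ F c})
    (hk : ∀ c : Cb, (sc - 1 / 1000) * pr w {ω | W ω ∈ F c} ≤ pr w {ω | W ω ∈ F c ∧ (W ω).Adj (q.y c) (q.k c)})
    (hl : ∀ c : Cb, (1 - sc - 1 / 1000) * pr w {ω | W ω ∈ F c} ≤ pr w {ω | W ω ∈ F c ∧ (W ω).Adj (q.y c) (q.l c)})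
    (hcl : ∀ c : Cb, pr w {ω | W ω ∈ F c ∧ ¬ (W ω).Adj (q.x c) (q.y c) ∧ (W ω).Adj (q.y c) (q.l c)} ≤
      1 / 1000 * pr w {ω | W ω ∈ F c})
    (hlam : pr w {ω | (∀ c, W ω ∈ F c) ∧ act q (W ω) ∈ Lk} ≤ lam) :
    p ≤ pc + 10000 * (lam / ∏ c : Cb, pr w {ω | W ω ∈ F c}) := by
  have hPe : pr w {ω | W ω ∈ {G : SimpleGraph V | ∀ c, G ∈ F c}} = ∏ c : Cb, pr w {ω | W ω ∈ F c} :=
    pr_F hw hi hq hF
  have hP0 : 0 < pr w {ω | W ω ∈ {G : SimpleGraph V | ∀ c, G ∈ F c}} := by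
    rw [hPe]
    exact Finset.prod_pos fun c _ => hpos c
  have hlam0 : 0 ≤ lam := (pr_nonneg hw _).trans hlam
  -- events at one sheet
  have hR : ∀ c : Cb, 0 ≤ pr w {ω | ∀ d, d ≠ c → W ω ∈ F d} := fun c => pr_nonneg hw _
  have hPR : ∀ c : Cb, pr w {ω | W ω ∈ {G : SimpleGraph V | ∀ c, G ∈ F c}} =
      pr w {ω | W ω ∈ F c} * pr w {ω | ∀ d, d ≠ c → W ω ∈ F d} := by
    intro c
    have h1 := cond_in hi hq hF c (T := ∅) (E := Set.univ) (fun _ _ _ => Iff.rfl)
      (fun d _ => Set.disjoint_empty _)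
    have e1 : {ω | W ω ∈ {G : SimpleGraph V | ∀ c, G ∈ F c} ∧ W ω ∈ (Set.univ : Set (SimpleGraph V))} =
        {ω | W ω ∈ {G : SimpleGraph V | ∀ c, G ∈ F c}} := by
      ext ω
      exact ⟨fun h => h.1, fun h => ⟨h, Set.mem_univ _⟩⟩
    have e2 : {ω | W ω ∈ F c ∧ W ω ∈ (Set.univ : Set (SimpleGraph V))} = {ω | W ω ∈ F c} := by
      ext ω
      exact ⟨fun h => h.1, fun h => ⟨h, Set.mem_univ _⟩⟩
    rw [e1, e2] at h1
    exact h1
  have hlow : ∀ (c : Cb) (T : Set V) (E : Set (SimpleGraph V)) (s : ℝ), DepOn T E →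
      (∀ d, d ≠ c → Disjoint (q.sh d) T) → s * pr w {ω | W ω ∈ F c} ≤ pr w {ω | W ω ∈ F c ∧ W ω ∈ E} →
      s ≤ pr w {ω | W ω ∈ {G : SimpleGraph V | ∀ c, G ∈ F c} ∧ W ω ∈ E} /
        pr w {ω | W ω ∈ {G : SimpleGraph V | ∀ c, G ∈ F c}} := by
    intro c T E s hE hT hs
    rw [le_div_iff₀ hP0, cond_in hi hq hF c hE hT, hPR c, ← mul_assoc]
    exact mul_le_mul_of_nonneg_right hs (hR c)
  have hupp : ∀ (c : Cb) (T : Set V) (E : Set (SimpleGraph V)) (s : ℝ), DepOn T E →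
      (∀ d, d ≠ c → Disjoint (q.sh d) T) → pr w {ω | W ω ∈ F c ∧ W ω ∈ E} ≤ s * pr w {ω | W ω ∈ F c} →
      pr w {ω | W ω ∈ {G : SimpleGraph V | ∀ c, G ∈ F c} ∧ W ω ∈ E} /
        pr w {ω | W ω ∈ {G : SimpleGraph V | ∀ c, G ∈ F c}} ≤ s := by
    intro c T E s hE hT hs
    rw [div_le_iff₀ hP0, cond_in hi hq hF c hE hT, hPR c, ← mul_assoc]
    exact mul_le_mul_of_nonneg_right hs (hR c)
  have hout : ∀ (T : Set V) (E : Set (SimpleGraph V)), DepOn T E → (∀ d, Disjoint (q.sh d) T) →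
      p ≤ pr w {ω | W ω ∈ E} →
      p ≤ pr w {ω | W ω ∈ {G : SimpleGraph V | ∀ c, G ∈ F c} ∧ W ω ∈ E} /
        pr w {ω | W ω ∈ {G : SimpleGraph V | ∀ c, G ∈ F c}} := by
    intro T E hE hT hs
    rw [le_div_iff₀ hP0, cond_out hi hF hE hT, mul_comm]
    exact mul_le_mul_of_nonneg_left hs hP0.le
  have hWL : WallLaw p (1 / 1000) (lam / ∏ c : Cb, pr w {ω | W ω ∈ F c})
      (cw w W {G : SimpleGraph V | ∀ c, G ∈ F c}) (fun ω => act q (W ω)) := by
    constructor
    · constructor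
      · intro ω
        unfold cw
        split_ifs
        · exact div_nonneg (hw.nonneg ω) hP0.le
        · exact le_rfl
      · have h1 := cond_cw_pr w W {G : SimpleGraph V | ∀ c, G ∈ F c} Set.univ
        have e1 : {ω | W ω ∈ {G : SimpleGraph V | ∀ c, G ∈ F c} ∧ ω ∈ (Set.univ : Set Ω)} =
            {ω | W ω ∈ {G : SimpleGraph V | ∀ c, G ∈ F c}} := by
          ext ω
          exact ⟨fun h => h.1, fun h => ⟨h, Set.mem_univ _⟩⟩
        rw [e1, div_self hP0.ne'] at h1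
        rw [← h1]
        unfold pr
        refine Finset.sum_congr rfl fun ω _ => ?_
        rw [Set.indicator_of_mem (Set.mem_univ ω)]
    · intro A B hA hB hAB U U' hU hU'
      have h1 := cond_indep hw hi hq hF hpos hA hB hAB hU hU'
      rw [cond_cw_pr, cond_cw_pr, cond_cw_pr, div_mul_div_comm, div_eq_div_iff hP0.ne' (mul_pos hP0 hP0).ne']
      have h2 : pr w {ω | W ω ∈ {G : SimpleGraph V | ∀ c, G ∈ F c} ∧
            ω ∈ {ω | act q (W ω) ∈ U ∧ act q (W ω) ∈ U'}} *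
            pr w {ω | W ω ∈ {G : SimpleGraph V | ∀ c, G ∈ F c}} =
          pr w {ω | W ω ∈ {G : SimpleGraph V | ∀ c, G ∈ F c} ∧ ω ∈ {ω | act q (W ω) ∈ U}} *
            pr w {ω | W ω ∈ {G : SimpleGraph V | ∀ c, G ∈ F c} ∧ ω ∈ {ω | act q (W ω) ∈ U'}} := h1
      rw [← mul_assoc, h2]
    · intro a c
      rw [cond_cw_pr]
      refine (hout {q.x c, q.x (fl a c)} {G : SimpleGraph V | G.Adj (q.x c) (q.x (fl a c))}
        (depOn_adj (Or.inl rfl) (Or.inr rfl)) (fun d => cond_disj_pair (hq.x_not _ _) (hq.x_not _ _))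
        (hxx a c)).trans ?_
      refine div_le_div_of_nonneg_right (pr_mono hw ?_) hP0.le
      rintro ω ⟨h1, h2⟩
      refine ⟨h1, cond_act_of (ActRel.xx c (fl a c) h2) ?_⟩
      intro h3
      exact fl_ne a c (congrArg Prod.snd h3).symm
    · intro a c
      rw [cond_cw_pr]
      refine (hout {q.y c, q.y (fl a c)} {G : SimpleGraph V | G.Adj (q.y c) (q.y (fl a c))}
        (depOn_adj (Or.inl rfl) (Or.inr rfl)) (fun d => cond_disj_pair (hq.y_not _ _) (hq.y_not _ _))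
        (hyy a c)).trans ?_
      refine div_le_div_of_nonneg_right (pr_mono hw ?_) hP0.le
      rintro ω ⟨h1, h2⟩
      refine ⟨h1, cond_act_of (ActRel.yy c (fl a c) h2) ?_⟩
      intro h3
      exact fl_ne a c (congrArg Prod.snd h3).symm
    · intro c
      rw [cond_cw_pr]
      refine (hout {q.x c, q.y c} {G : SimpleGraph V | G.Adj (q.x c) (q.y c)}
        (depOn_adj (Or.inl rfl) (Or.inr rfl)) (fun d => cond_disj_pair (hq.x_not _ _) (hq.y_not _ _))
        (hxy c)).trans ?_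
      refine div_le_div_of_nonneg_right (pr_mono hw ?_) hP0.le
      rintro ω ⟨h1, h2⟩
      exact ⟨h1, cond_act_of (ActRel.xy c c h2) (cond_fst_ne (by decide))⟩
    · intro c
      rw [cond_cw_pr]
      refine (hlow c {q.y c, q.k c} {G : SimpleGraph V | G.Adj (q.y c) (q.k c)} (sc - 1 / 1000)
        (depOn_adj (Or.inl rfl) (Or.inr rfl))
        (fun d hd => cond_disj_pair (hq.y_not _ _)
          (fun h => Set.disjoint_left.1 (hq.disj d c hd) h (hq.k_mem c))) (hk c)).trans ?_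
      refine div_le_div_of_nonneg_right (pr_mono hw ?_) hP0.le
      rintro ω ⟨h1, h2⟩
      exact ⟨h1, cond_act_of (ActRel.yk c h2) (cond_fst_ne (by decide))⟩
    · intro c
      rw [cond_cw_pr]
      refine (hlow c {q.y c, q.l c} {G : SimpleGraph V | G.Adj (q.y c) (q.l c)} (1 - sc - 1 / 1000)
        (depOn_adj (Or.inl rfl) (Or.inr rfl))
        (fun d hd => cond_disj_pair (hq.y_not _ _)
          (fun h => Set.disjoint_left.1 (hq.disj d c hd) h (hq.l_mem c))) (hl c)).trans ?_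
      refine div_le_div_of_nonneg_right (pr_mono hw ?_) hP0.le
      rintro ω ⟨h1, h2⟩
      exact ⟨h1, cond_act_of (ActRel.yl c h2) (cond_fst_ne (by decide))⟩
    · intro c
      rw [cond_cw_pr]
      refine le_trans ?_ (hupp c ({q.x c, q.y c} ∪ {q.y c, q.l c})
        ({G : SimpleGraph V | G.Adj (q.x c) (q.y c)}ᶜ ∩ {G : SimpleGraph V | G.Adj (q.y c) (q.l c)}) (1 / 1000)
        ?_ ?_ ?_)
      · refine div_le_div_of_nonneg_right (pr_mono hw ?_) hP0.le
        rintro ω ⟨h1, h2, h3⟩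
        refine ⟨h1, fun h4 => h2 (cond_act_of (ActRel.xy c c h4) (cond_fst_ne (by decide))), ?_⟩
        exact cond_act_yl h3
      · have d1 : DepOn ({q.x c, q.y c} : Set V) {G : SimpleGraph V | G.Adj (q.x c) (q.y c)} :=
          depOn_adj (Or.inl rfl) (Or.inr rfl)
        have d2 : DepOn ({q.y c, q.l c} : Set V) {G : SimpleGraph V | G.Adj (q.y c) (q.l c)} :=
          depOn_adj (Or.inl rfl) (Or.inr rfl)
        exact (d1.mono Set.subset_union_left).compl.inter (d2.mono Set.subset_union_right)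
      · intro d hd
        rw [Set.disjoint_union_right]
        exact ⟨cond_disj_pair (hq.x_not _ _) (hq.y_not _ _), cond_disj_pair (hq.y_not _ _)
          (fun h => Set.disjoint_left.1 (hq.disj d c hd) h (hq.l_mem c))⟩
      · exact hcl c
    · rw [cond_cw_pr, ← hPe]
      exact div_le_div_of_nonneg_right hlam hP0.le
  refine wall_main hWL hp ?_
  rw [← hPe]
  exact div_nonneg hlam0 hP0.le

end Pool.Agent.LPW
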