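import Pool.Agent.LPW.Defs

/-!
# LPW: dependence sets, product formula, leak inclusions

`blk c = {vY c, vK c, vL c}` is saturated; `{vX c}` is saturated.  Every event of `Defs` depends on a union of
such sets.  `fl a` is an involution, `fl a c ≠ c`, `fl a c ≠ fl b c` for `a ≠ b`, `fl a (fl b c) = fl b (fl a c)`,
and `fl` changes the parity of the number of `true` coordinates, so `c`, `fl b (fl a c)` are never neighbours of each
other (all disjointness statements can be checked by `decide` on `Cb = Fin 3 → Bool`, or by evaluation).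
-/

set_option autoImplicit false

open Finset
open scoped Classical

namespace Pool.Agent.LPW

open Pool.Agent.OIP

/-- the block of `c` -/
def blk (c : Cb) : Set AV := {vY c, vK c, vL c}

theorem fl_fl (a : Fin 3) (c : Cb) : fl a (fl a c) = c := by
  revert a c; decide

theorem fl_ne (a : Fin 3) (c : Cb) : fl a c ≠ c := by
  revert a c; decide

theorem fl_inj {a b : Fin 3} {c : Cb} (h : fl a c = fl b c) : a = b := by
  revert a b c; decide

theorem fl_comm (a b : Fin 3) (c : Cb) : fl a (fl b c) = fl b (fl a c) := by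
  revert a b c; decide

/-- the eight vertices around an edge of the active cube are pairwise different -/
theorem fl_edge (a : Fin 3) (c : Cb) :
    [c, fl a c, fl (a + 1) c, fl (a + 2) c, fl (a + 1) (fl a c), fl (a + 2) (fl a c)].Nodup := by
  revert a c; decide

theorem sat_blk (c : Cb) : Sat (blk c) := by
  intro d
  simp [blk]

theorem sat_X (c : Cb) : Sat ({vX c} : Set AV) := by
  intro d
  simp

theorem Sat.union {A B : Set AV} (hA : Sat A) (hB : Sat B) : Sat (A ∪ B) := by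
  intro d
  exact or_congr (hA d) (hB d)

theorem disj_blk {c d : Cb} (h : c ≠ d) : Disjoint (blk c) (blk d) := by
  rw [Set.disjoint_left]
  rintro ⟨i, e⟩ h1 h2
  simp only [blk, Set.mem_insert_iff, Set.mem_singleton_iff, Prod.mk.injEq] at h1 h2
  have e1 : e = c := by tauto
  have e2 : e = d := by tauto
  exact h (e1.symm.trans e2)

theorem disj_X_blk (c d : Cb) : Disjoint ({vX c} : Set AV) (blk d) := by
  rw [Set.disjoint_left]
  rintro ⟨i, e⟩ h1 h2
  simp only [Set.mem_singleton_iff, Prod.mk.injEq] at h1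
  obtain ⟨rfl, rfl⟩ := h1
  simp [blk] at h2

theorem dep_eK (c : Cb) : DepOn (blk c) (eK c) :=
  depOn_adj (by simp [blk]) (by simp [blk])

theorem dep_eL (c : Cb) : DepOn (blk c) (eL c) :=
  depOn_adj (by simp [blk]) (by simp [blk])

theorem dep_eX (c : Cb) : DepOn ({vX c} ∪ blk c) (eX c) :=
  depOn_adj (Or.inl rfl) (Or.inr (by simp [blk]))

theorem dep_eY (a : Fin 3) (c : Cb) : DepOn (blk c ∪ blk (fl a c)) (eY a c) :=
  depOn_adj (Or.inl (by simp [blk])) (Or.inr (by simp [blk]))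

/-- the event `eY a c` needs only the two vertices `vY` -/
theorem dep_eY' (a : Fin 3) (c : Cb) : DepOn ({vY c, vY (fl a c)} : Set AV) (eY a c) :=
  depOn_adj (Or.inl rfl) (Or.inr rfl)

theorem dep_eXX (a : Fin 3) (c : Cb) : DepOn ({vX c} ∪ {vX (fl a c)}) (eXX a c) :=
  depOn_adj (Or.inl rfl) (Or.inr rfl)

theorem eY_symm (a : Fin 3) (c : Cb) : eY a (fl a c) = eY a c := by
  ext G
  show G.Adj (vY (fl a c)) (vY (fl a (fl a c))) ↔ G.Adj (vY c) (vY (fl a c))
  rw [fl_fl]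
  exact ⟨fun h => h.symm, fun h => h.symm⟩

theorem eXX_symm (a : Fin 3) (c : Cb) : eXX a (fl a c) = eXX a c := by
  ext G
  show G.Adj (vX (fl a c)) (vX (fl a (fl a c))) ↔ G.Adj (vX c) (vX (fl a c))
  rw [fl_fl]
  exact ⟨fun h => h.symm, fun h => h.symm⟩

section prod

variable {Ω : Type} [Fintype Ω] {p η l : ℝ} {w : Ω → ℝ} {W : Ω → SimpleGraph AV}

theorem PG_nonneg (h : WallLaw p η l w W) (U : Set (SimpleGraph AV)) : 0 ≤ PG w W U :=
  pr_nonneg h.law _

theorem PG_le_one (h : WallLaw p η l w W) (U : Set (SimpleGraph AV)) : PG w W U ≤ 1 :=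
  pr_le_one h.law _

theorem PG_mono (h : WallLaw p η l w W) {U U' : Set (SimpleGraph AV)} (hU : U ⊆ U') :
    PG w W U ≤ PG w W U' :=
  pr_mono h.law fun _ hω => hU hω

theorem PG_split (h : WallLaw p η l w W) (U V : Set (SimpleGraph AV)) :
    PG w W (U ∩ V) + PG w W (U ∩ Vᶜ) = PG w W U := by
  have _ := h
  exact pr_inter_add_diff (w := w) {ω | W ω ∈ U} {ω | W ω ∈ V}

theorem PG_union_le (h : WallLaw p η l w W) (U V : Set (SimpleGraph AV)) :
    PG w W (U ∪ V) ≤ PG w W U + PG w W V :=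
  pr_union_le h.law {ω | W ω ∈ U} {ω | W ω ∈ V}

theorem PG_compl (h : WallLaw p η l w W) (U : Set (SimpleGraph AV)) : PG w W Uᶜ = 1 - PG w W U :=
  pr_compl h.law {ω | W ω ∈ U}

/-- an event contained in `U ∪ Lk` -/
theorem PG_le_leak (h : WallLaw p η l w W) {U U' : Set (SimpleGraph AV)} (hU : U ⊆ U' ∪ Lk) :
    PG w W U ≤ PG w W U' + l :=
  calc PG w W U ≤ PG w W (U' ∪ Lk) := PG_mono h hU
    _ ≤ PG w W U' + PG w W Lk := PG_union_le h _ _
    _ ≤ PG w W U' + l := add_le_add le_rfl h.leak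

/-- product formula -/
theorem PG_inter (h : WallLaw p η l w W) {A B : Set AV} (hA : Sat A) (hB : Sat B) (hAB : Disjoint A B)
    {U U' : Set (SimpleGraph AV)} (hU : DepOn A U) (hU' : DepOn B U') :
    PG w W (U ∩ U') = PG w W U * PG w W U' :=
  h.indep A B hA hB hAB U U' hU hU'

end prod

theorem dep_reach {a : Fin 3} {c : Cb} {G : SimpleGraph AV} (h1 : G ∈ RR a c) (h2 : G ∈ GG a c) :
    ∃ d : Cb, Relation.ReflTransGen G.Adj (vK d) (vY c) := by
  obtain ⟨g1, g2⟩ := h2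
  rcases h1 with (h1 | h1) | h1
  · exact ⟨c, Relation.ReflTransGen.single (SimpleGraph.Adj.symm h1)⟩
  · exact ⟨fl (a + 1) c, (Relation.ReflTransGen.single (SimpleGraph.Adj.symm g1)).tail
      (SimpleGraph.Adj.symm h1)⟩
  · exact ⟨fl (a + 2) c, (Relation.ReflTransGen.single (SimpleGraph.Adj.symm g2)).tail
      (SimpleGraph.Adj.symm h1)⟩

/-- leak: `vY c` is joined to a marked `K` and to its `L` -/
theorem leak_RL (a : Fin 3) (c : Cb) : RR a c ∩ GG a c ∩ eL c ⊆ Lk := by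
  rintro G ⟨⟨h1, h2⟩, h3⟩
  obtain ⟨d, hd⟩ := dep_reach h1 h2
  exact ⟨d, c, hd.tail h3⟩

/-- leak: `K`, `Y c`, `Y (fl a c)`, `L` -/
theorem leak_YY (a : Fin 3) (c : Cb) : RR a c ∩ GG a c ∩ eY a c ∩ eL (fl a c) ⊆ Lk := by
  rintro G ⟨⟨⟨h1, h2⟩, h3⟩, h4⟩
  obtain ⟨d, hd⟩ := dep_reach h1 h2
  exact ⟨d, fl a c, (hd.tail h3).tail h4⟩

/-- leak: `K`, `Y c`, `X c`, `X (fl a c)`, `Y (fl a c)`, `L` -/
theorem leak_XX (a : Fin 3) (c : Cb) :
    RR a c ∩ GG a c ∩ eX c ∩ eXX a c ∩ eX (fl a c) ∩ eL (fl a c) ⊆ Lk := by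
  rintro G ⟨⟨⟨⟨⟨h1, h2⟩, h3⟩, h4⟩, h5⟩, h6⟩
  obtain ⟨d, hd⟩ := dep_reach h1 h2
  exact ⟨d, fl a c, (((hd.tail (SimpleGraph.Adj.symm h3)).tail h4).tail h5).tail h6⟩

/-- leak: `K`, (neighbour of) `Y (fl a c)`, `Y c`, `Y (fl (a + 1) c)`, `L` -/
theorem leak_YYY (a : Fin 3) (c : Cb) :
    RR a (fl a c) ∩ GG a (fl a c) ∩ eY a c ∩ eY (a + 1) c ∩ eL (fl (a + 1) c) ⊆ Lk := by
  rintro G ⟨⟨⟨⟨h1, h2⟩, h3⟩, h4⟩, h5⟩
  obtain ⟨d, hd⟩ := dep_reach h1 h2
  exact ⟨d, fl (a + 1) c, ((hd.tail (SimpleGraph.Adj.symm h3)).tail h4).tail h5⟩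

end Pool.Agent.LPW
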