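import Pool.Agent.LPW.CondDefs
import Pool.Agent.LPW.Dep

/-!
# LPW: the wall inequality after conditioning on the sheets

`F c` is an event that depends only on the sheet `sh c`.  Under the conditional law given all `F c` the active
graph `act q (W ω)` satisfies `WallLaw`.

Proof.  `pr_F`: the sheets are disjoint, so `P (all F c) = ∏ P (F c)` (induction over a finite set of `c`; the
union of the sheets of the others is disjoint from `sh c`).  `cond_indep`: for disjoint saturated `A`, `B` put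
`F_A = {F c for all c with vK c ∈ A}`, `F_B`, `F_0` (the remaining `c`).  `act q (W ω) ∈ U` for `U` with
`DepOn A U` depends only on the edges inside `plSet q A` (`act_dep`), and `F_A` as well; `plSet q A`, `plSet q B` and
the union of the remaining sheets are disjoint, so
`P (U ∩ U' ∩ F) = P (U ∩ F_A) P (U' ∩ F_B) P (F_0)`, `P (U ∩ F) = P (U ∩ F_A) P (F_B) P (F_0)` etc., hence
`P (U ∩ U' | F) = P (U | F) P (U' | F)`.  The edges `X-X`, `Y-Y`, `X-Y` lie outside the sheets, so their conditional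
probabilities are the unconditional ones.  For `Y c - K c`: `P (Y c - K c, F) = P (Y c - K c, F c) ∏_{d ≠ c} P (F d)`.
`cond_main`: apply `wall_main` with `l = λ / ∏ P (F c)`.
-/

set_option autoImplicit false

open Finset
open scoped Classical

namespace Pool.Agent.LPW

open Pool.Agent.OIP

variable {Ω V : Type} [Fintype Ω]

theorem cond1_rel {q : Plc V} (hq : PlcOK q) {A : Set AV} (hA : Sat A) {G H : SimpleGraph V}
    (hGH : ∀ a ∈ plSet q A, ∀ b ∈ plSet q A, (G.Adj a b ↔ H.Adj a b)) {a b : AV} (ha : a ∈ A) (hb : b ∈ A)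
    (h : ActRel q G a b) : ActRel q H a b := by
  cases h with
  | xx c d h =>
    exact .xx c d ((hGH _ ⟨c, Or.inl ⟨ha, rfl⟩⟩ _ ⟨d, Or.inl ⟨hb, rfl⟩⟩).1 h)
  | yy c d h =>
    exact .yy c d ((hGH _ ⟨c, Or.inr (Or.inl ⟨ha, rfl⟩)⟩ _ ⟨d, Or.inr (Or.inl ⟨hb, rfl⟩)⟩).1 h)
  | xy c d h =>
    exact .xy c d ((hGH _ ⟨c, Or.inl ⟨ha, rfl⟩⟩ _ ⟨d, Or.inr (Or.inl ⟨hb, rfl⟩)⟩).1 h)
  | yk c h =>
    exact .yk c ((hGH _ ⟨c, Or.inr (Or.inl ⟨ha, rfl⟩)⟩ _ ⟨c, Or.inr (Or.inr ⟨hb, hq.k_mem c⟩)⟩).1 h)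
  | yl c h =>
    exact .yl c ((hGH _ ⟨c, Or.inr (Or.inl ⟨ha, rfl⟩)⟩ _
      ⟨c, Or.inr (Or.inr ⟨(hA c).2 hb, hq.l_mem c⟩)⟩).1 h)

theorem cond1_adj {q : Plc V} (hq : PlcOK q) {A : Set AV} (hA : Sat A) {G H : SimpleGraph V}
    (hGH : ∀ a ∈ plSet q A, ∀ b ∈ plSet q A, (G.Adj a b ↔ H.Adj a b)) {a b : AV} (ha : a ∈ A) (hb : b ∈ A)
    (h : (act q G).Adj a b) : (act q H).Adj a b := by
  unfold act at *
  rw [SimpleGraph.fromRel_adj] at *
  refine ⟨h.1, ?_⟩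
  rcases h.2 with h | h
  · exact Or.inl (cond1_rel hq hA hGH ha hb h)
  · exact Or.inr (cond1_rel hq hA hGH hb ha h)

theorem act_dep {q : Plc V} (hq : PlcOK q) {A : Set AV} (hA : Sat A) {U : Set (SimpleGraph AV)} (hU : DepOn A U) :
    DepOn (plSet q A) {G : SimpleGraph V | act q G ∈ U} := by
  intro G H hGH
  refine hU (act q G) (act q H) ?_
  intro a ha b hb
  exact ⟨cond1_adj hq hA hGH ha hb,
    cond1_adj hq hA (fun a ha b hb => (hGH a ha b hb).symm) ha hb⟩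

theorem pr_F {w : Ω → ℝ} {W : Ω → SimpleGraph V} (hw : IsLaw w) (hi : OneIndep w W) {q : Plc V} (hq : PlcOK q)
    {F : Cb → Set (SimpleGraph V)} (hF : ∀ c, DepOn (q.sh c) (F c)) :
    pr w {ω | ∀ c, W ω ∈ F c} = ∏ c : Cb, pr w {ω | W ω ∈ F c} := by
  have key : ∀ s : Finset Cb, pr w {ω | ∀ c ∈ s, W ω ∈ F c} = ∏ c ∈ s, pr w {ω | W ω ∈ F c} := by
    intro s
    induction s using Finset.induction_on with
    | empty =>
      rw [Finset.prod_empty, ← pr_univ hw]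
      congr 1
      ext ω
      simp
    | insert a s ha ih =>
      rw [Finset.prod_insert ha, ← ih]
      have h1 := hi (q.sh a) {v | ∃ c ∈ s, v ∈ q.sh c} (by
        rw [Set.disjoint_left]
        rintro v hv ⟨c, hc, hvc⟩
        exact Set.disjoint_left.1 (hq.disj a c (fun h => ha (h ▸ hc))) hv hvc)
        (F a) {G | ∀ c ∈ s, G ∈ F c} (hF a) (by
          intro G H hGH
          refine forall_congr' fun c => ?_
          refine forall_congr' fun hc => ?_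
          exact hF c G H fun u hu v hv => hGH u ⟨c, hc, hu⟩ v ⟨c, hc, hv⟩)
      rw [← show pr w {ω | W ω ∈ {G | ∀ c ∈ s, G ∈ F c}} = pr w {ω | ∀ c ∈ s, W ω ∈ F c} from rfl, ← h1]
      congr 1
      ext ω
      simp only [Finset.mem_insert, Set.mem_ofPred_eq]
      constructor
      · intro h
        exact ⟨h a (Or.inl rfl), fun c hc => h c (Or.inr hc)⟩
      · rintro ⟨h1, h2⟩ c (rfl | hc)
        · exact h1
        · exact h2 c hc
  have := key Finset.univ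
  simpa using this

theorem cond1_three {w : Ω → ℝ} {W : Ω → SimpleGraph V} (hi : OneIndep w W) {A B C : Set V}
    (hAB : Disjoint A B) (hAC : Disjoint A C) (hBC : Disjoint B C) {X Y Z : Set (SimpleGraph V)}
    (hX : DepOn A X) (hY : DepOn B Y) (hZ : DepOn C Z) :
    pr w {ω | W ω ∈ X ∧ W ω ∈ Y ∧ W ω ∈ Z} =
      pr w {ω | W ω ∈ X} * (pr w {ω | W ω ∈ Y} * pr w {ω | W ω ∈ Z}) := by
  rw [← hi B C hBC Y Z hY hZ]
  exact hi A (B ∪ C) (Set.disjoint_union_right.2 ⟨hAB, hAC⟩) X (Y ∩ Z) hX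
    ((hY.mono Set.subset_union_left).inter (hZ.mono Set.subset_union_right))

theorem cond1_disj {q : Plc V} (hq : PlcOK q) {A B : Set AV} (hAB : Disjoint A B) :
    Disjoint (plSet q A) (plSet q B) := by
  rw [Set.disjoint_left]
  rintro v ⟨c, hc⟩ ⟨d, hd⟩
  rcases hc with ⟨hc, rfl⟩ | ⟨hc, rfl⟩ | ⟨hc, hv⟩
  · rcases hd with ⟨hd, h⟩ | ⟨hd, h⟩ | ⟨hd, h⟩
    · rw [← hq.x_inj h] at hd
      exact Set.disjoint_left.1 hAB hc hd
    · exact hq.xy c d h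
    · exact hq.x_not c d h
  · rcases hd with ⟨hd, h⟩ | ⟨hd, h⟩ | ⟨hd, h⟩
    · exact hq.xy d c h.symm
    · rw [← hq.y_inj h] at hd
      exact Set.disjoint_left.1 hAB hc hd
    · exact hq.y_not c d h
  · rcases hd with ⟨hd, rfl⟩ | ⟨hd, rfl⟩ | ⟨hd, h⟩
    · exact hq.x_not d c hv
    · exact hq.y_not d c hv
    · by_cases hcd : c = d
      · rw [← hcd] at hd
        exact Set.disjoint_left.1 hAB hc hd
      · exact Set.disjoint_left.1 (hq.disj c d hcd) hv h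

theorem cond1_disj0 {q : Plc V} (hq : PlcOK q) {A : Set AV} {S : Set Cb} (hS : ∀ c ∈ S, vK c ∉ A) :
    Disjoint (plSet q A) {v | ∃ c ∈ S, v ∈ q.sh c} := by
  rw [Set.disjoint_left]
  rintro v ⟨c, hc⟩ ⟨d, hd, hvd⟩
  rcases hc with ⟨hc, rfl⟩ | ⟨hc, rfl⟩ | ⟨hc, hv⟩
  · exact hq.x_not c d hvd
  · exact hq.y_not c d hvd
  · by_cases hcd : c = d
    · rw [hcd] at hc
      exact hS d hd hc
    · exact Set.disjoint_left.1 (hq.disj c d hcd) hv hvd

theorem cond1_depF {q : Plc V} {F : Cb → Set (SimpleGraph V)} (hF : ∀ c, DepOn (q.sh c) (F c))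
    (A : Set AV) : DepOn (plSet q A) {G | ∀ c, vK c ∈ A → G ∈ F c} := by
  intro G H hGH
  refine forall_congr' fun c => ?_
  refine forall_congr' fun hc => ?_
  exact hF c G H fun u hu v hv => hGH u ⟨c, Or.inr (Or.inr ⟨hc, hu⟩)⟩ v ⟨c, Or.inr (Or.inr ⟨hc, hv⟩)⟩

theorem cond1_depS {q : Plc V} {F : Cb → Set (SimpleGraph V)} (hF : ∀ c, DepOn (q.sh c) (F c))
    (S : Set Cb) : DepOn {v | ∃ c ∈ S, v ∈ q.sh c} {G | ∀ c ∈ S, G ∈ F c} := by
  intro G H hGH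
  refine forall_congr' fun c => ?_
  refine forall_congr' fun hc => ?_
  exact hF c G H fun u hu v hv => hGH u ⟨c, hc, hu⟩ v ⟨c, hc, hv⟩

theorem cond_indep {w : Ω → ℝ} {W : Ω → SimpleGraph V} (hw : IsLaw w) (hi : OneIndep w W) {q : Plc V} (hq : PlcOK q)
    {F : Cb → Set (SimpleGraph V)} (hF : ∀ c, DepOn (q.sh c) (F c)) (hpos : ∀ c, 0 < pr w {ω | W ω ∈ F c})
    {A B : Set AV} (hA : Sat A) (hB : Sat B) (hAB : Disjoint A B) {U U' : Set (SimpleGraph AV)}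
    (hU : DepOn A U) (hU' : DepOn B U') :
    pr w {ω | (∀ c, W ω ∈ F c) ∧ act q (W ω) ∈ U ∧ act q (W ω) ∈ U'} * pr w {ω | ∀ c, W ω ∈ F c} =
      pr w {ω | (∀ c, W ω ∈ F c) ∧ act q (W ω) ∈ U} * pr w {ω | (∀ c, W ω ∈ F c) ∧ act q (W ω) ∈ U'} := by
  set FA : Set (SimpleGraph V) := {G | ∀ c, vK c ∈ A → G ∈ F c} with hFA
  set FB : Set (SimpleGraph V) := {G | ∀ c, vK c ∈ B → G ∈ F c} with hFB
  set S : Set Cb := {c | vK c ∉ A ∧ vK c ∉ B} with hS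
  set F0 : Set (SimpleGraph V) := {G | ∀ c ∈ S, G ∈ F c} with hF0
  have hall : ∀ G : SimpleGraph V, (∀ c, G ∈ F c) ↔ G ∈ FA ∧ G ∈ FB ∧ G ∈ F0 := by
    intro G
    constructor
    · intro h
      exact ⟨fun c _ => h c, fun c _ => h c, fun c _ => h c⟩
    · rintro ⟨h1, h2, h3⟩ c
      by_cases hcA : vK c ∈ A
      · exact h1 c hcA
      · by_cases hcB : vK c ∈ B
        · exact h2 c hcB
        · exact h3 c ⟨hcA, hcB⟩
  have d1 := cond1_disj hq hAB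
  have d2 := cond1_disj0 (A := A) (S := S) hq fun c hc => hc.1
  have d3 := cond1_disj0 (A := B) (S := S) hq fun c hc => hc.2
  have dFA : DepOn (plSet q A) FA := cond1_depF hF A
  have dFB : DepOn (plSet q B) FB := cond1_depF hF B
  have dF0 : DepOn {v | ∃ c ∈ S, v ∈ q.sh c} F0 := cond1_depS hF S
  have dU : DepOn (plSet q A) ({G : SimpleGraph V | act q G ∈ U} ∩ FA) := (act_dep hq hA hU).inter dFA
  have dU' : DepOn (plSet q B) ({G : SimpleGraph V | act q G ∈ U'} ∩ FB) := (act_dep hq hB hU').inter dFB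
  have e1 : pr w {ω | (∀ c, W ω ∈ F c) ∧ act q (W ω) ∈ U ∧ act q (W ω) ∈ U'} =
      pr w {ω | W ω ∈ ({G : SimpleGraph V | act q G ∈ U} ∩ FA)} *
        (pr w {ω | W ω ∈ ({G : SimpleGraph V | act q G ∈ U'} ∩ FB)} * pr w {ω | W ω ∈ F0}) := by
    rw [← cond1_three hi d1 d2 d3 dU dU' dF0]
    congr 1
    ext ω
    have h := hall (W ω)
    constructor
    · rintro ⟨h1, h2, h3⟩
      have h4 := h.1 h1
      exact ⟨⟨h2, h4.1⟩, ⟨h3, h4.2.1⟩, h4.2.2⟩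
    · rintro ⟨⟨h2, h4⟩, ⟨h3, h5⟩, h6⟩
      exact ⟨h.2 ⟨h4, h5, h6⟩, h2, h3⟩
  have e2 : pr w {ω | ∀ c, W ω ∈ F c} =
      pr w {ω | W ω ∈ FA} * (pr w {ω | W ω ∈ FB} * pr w {ω | W ω ∈ F0}) := by
    rw [← cond1_three hi d1 d2 d3 dFA dFB dF0]
    congr 1
    ext ω
    exact hall (W ω)
  have e3 : pr w {ω | (∀ c, W ω ∈ F c) ∧ act q (W ω) ∈ U} =
      pr w {ω | W ω ∈ ({G : SimpleGraph V | act q G ∈ U} ∩ FA)} *
        (pr w {ω | W ω ∈ FB} * pr w {ω | W ω ∈ F0}) := by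
    rw [← cond1_three hi d1 d2 d3 dU dFB dF0]
    congr 1
    ext ω
    have h := hall (W ω)
    constructor
    · rintro ⟨h1, h2⟩
      have h4 := h.1 h1
      exact ⟨⟨h2, h4.1⟩, h4.2.1, h4.2.2⟩
    · rintro ⟨⟨h2, h4⟩, h5, h6⟩
      exact ⟨h.2 ⟨h4, h5, h6⟩, h2⟩
  have e4 : pr w {ω | (∀ c, W ω ∈ F c) ∧ act q (W ω) ∈ U'} =
      pr w {ω | W ω ∈ FA} *
        (pr w {ω | W ω ∈ ({G : SimpleGraph V | act q G ∈ U'} ∩ FB)} * pr w {ω | W ω ∈ F0}) := by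
    rw [← cond1_three hi d1 d2 d3 dFA dU' dF0]
    congr 1
    ext ω
    have h := hall (W ω)
    constructor
    · rintro ⟨h1, h2⟩
      have h4 := h.1 h1
      exact ⟨h4.1, ⟨h2, h4.2.1⟩, h4.2.2⟩
    · rintro ⟨h4, ⟨h3, h5⟩, h6⟩
      exact ⟨h.2 ⟨h4, h5, h6⟩, h3⟩
  rw [e1, e2, e3, e4]
  ring

end Pool.Agent.LPW
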