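import Pool.Agent.LPW.Defs

/-!
# LPW: conditioning on the sheets, definitions

A placement puts the active cube into a graph with vertex type `V`: hubs `x c`, `y c`, two neighbours `k c`, `l c` of
`y c`, and for every `c` a region `sh c` (the sheet of `c` without hubs) with `k c, l c ∈ sh c`.
`act q G` is the induced active graph on `AV` (only the pairs `X-X`, `Y-Y`, `X-Y`, `Y c - K c`, `Y c - L c`).
-/

set_option autoImplicit false

open Finset
open scoped Classical

namespace Pool.Agent.LPW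

open Pool.Agent.OIP

/-- placement of the active cube -/
structure Plc (V : Type) where
  x : Cb → V
  y : Cb → V
  k : Cb → V
  l : Cb → V
  sh : Cb → Set V

structure PlcOK {V : Type} (q : Plc V) : Prop where
  x_inj : Function.Injective q.x
  y_inj : Function.Injective q.y
  xy : ∀ c d : Cb, q.x c ≠ q.y d
  k_mem : ∀ c : Cb, q.k c ∈ q.sh c
  l_mem : ∀ c : Cb, q.l c ∈ q.sh c
  x_not : ∀ c d : Cb, q.x c ∉ q.sh d
  y_not : ∀ c d : Cb, q.y c ∉ q.sh d
  disj : ∀ c d : Cb, c ≠ d → Disjoint (q.sh c) (q.sh d)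

/-- relation generating the active graph -/
inductive ActRel {V : Type} (q : Plc V) (G : SimpleGraph V) : AV → AV → Prop
  | xx (c d : Cb) : G.Adj (q.x c) (q.x d) → ActRel q G (vX c) (vX d)
  | yy (c d : Cb) : G.Adj (q.y c) (q.y d) → ActRel q G (vY c) (vY d)
  | xy (c d : Cb) : G.Adj (q.x c) (q.y d) → ActRel q G (vX c) (vY d)
  | yk (c : Cb) : G.Adj (q.y c) (q.k c) → ActRel q G (vY c) (vK c)
  | yl (c : Cb) : G.Adj (q.y c) (q.l c) → ActRel q G (vY c) (vL c)

/-- the active graph -/
def act {V : Type} (q : Plc V) (G : SimpleGraph V) : SimpleGraph AV := SimpleGraph.fromRel (ActRel q G)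

/-- vertices of `V` used by a set of active vertices (the sheet of `c` for `K c`, `L c`) -/
def plSet {V : Type} (q : Plc V) (A : Set AV) : Set V :=
  {v | ∃ c : Cb, (vX c ∈ A ∧ v = q.x c) ∨ (vY c ∈ A ∧ v = q.y c) ∨ (vK c ∈ A ∧ v ∈ q.sh c)}

/-- the conditional weights given the graph event `F` -/
noncomputable def cw {Ω V : Type} [Fintype Ω] (w : Ω → ℝ) (W : Ω → SimpleGraph V) (F : Set (SimpleGraph V)) (ω : Ω) : ℝ :=
  if W ω ∈ F then w ω / pr w {ω' | W ω' ∈ F} else 0

end Pool.Agent.LPW
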