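import Pool.Agent.OIP.PrBasic

/-!
# LPW: the abstract wall inequality (MP_8c5616_pr, full Q1, Part IV.1)

Active cube `Cb = {0,1}^3`.  Active vertices `vX c` (pure side), `vY c` (mixed side), `vK c` (a neighbour of `vY c`
which lies in the cluster of the mixed side), `vL c` (a neighbour of `vY c` in the cluster of the pure side).
`WallLaw p η l w W`: 1-independence with `vK c` and `vL c` glued, edge probabilities at least `p`, near-extremal
numbers up to `η`, and the probability that some `vK c` is connected with some `vL c'` is at most `l`.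
-/

set_option autoImplicit false

open Finset
open scoped Classical

namespace Pool.Agent.LPW

open Pool.Agent.OIP

noncomputable section

/-- the active cube -/
abbrev Cb : Type := Fin 3 → Bool

/-- the neighbour of `c` in direction `a` -/
def fl (a : Fin 3) (c : Cb) : Cb := Function.update c a (!c a)

/-- active vertices -/
abbrev AV : Type := Fin 4 × Cb

abbrev vX (c : Cb) : AV := (0, c)
abbrev vY (c : Cb) : AV := (1, c)
abbrev vK (c : Cb) : AV := (2, c)
abbrev vL (c : Cb) : AV := (3, c)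

/-- sets of active vertices which contain both or none of `vK c`, `vL c` -/
def Sat (A : Set AV) : Prop := ∀ c : Cb, (vK c ∈ A ↔ vL c ∈ A)

/-- the extremal number `s = (3 - √3)/2` -/
def sc : ℝ := (3 - Real.sqrt 3) / 2

/-- some `vK c` is connected with some `vL c'` -/
def Lk : Set (SimpleGraph AV) := {G | ∃ c c' : Cb, Relation.ReflTransGen G.Adj (vK c) (vL c')}

structure WallLaw {Ω : Type} [Fintype Ω] (p η l : ℝ) (w : Ω → ℝ) (W : Ω → SimpleGraph AV) : Prop where
  law : IsLaw w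
  indep : ∀ A B : Set AV, Sat A → Sat B → Disjoint A B →
    ∀ U U' : Set (SimpleGraph AV), DepOn A U → DepOn B U' →
    pr w {ω | W ω ∈ U ∧ W ω ∈ U'} = pr w {ω | W ω ∈ U} * pr w {ω | W ω ∈ U'}
  xx : ∀ (a : Fin 3) (c : Cb), p ≤ pr w {ω | (W ω).Adj (vX c) (vX (fl a c))}
  yy : ∀ (a : Fin 3) (c : Cb), p ≤ pr w {ω | (W ω).Adj (vY c) (vY (fl a c))}
  xy : ∀ c : Cb, p ≤ pr w {ω | (W ω).Adj (vX c) (vY c)}
  yk : ∀ c : Cb, sc - η ≤ pr w {ω | (W ω).Adj (vY c) (vK c)}
  yl : ∀ c : Cb, 1 - sc - η ≤ pr w {ω | (W ω).Adj (vY c) (vL c)}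
  cl : ∀ c : Cb, pr w {ω | ¬ (W ω).Adj (vX c) (vY c) ∧ (W ω).Adj (vY c) (vL c)} ≤ η
  leak : pr w {ω | W ω ∈ Lk} ≤ l

/-- probability of a graph event -/
def PG {Ω : Type} [Fintype Ω] (w : Ω → ℝ) (W : Ω → SimpleGraph AV) (U : Set (SimpleGraph AV)) : ℝ :=
  pr w {ω | W ω ∈ U}

def eK (c : Cb) : Set (SimpleGraph AV) := {G | G.Adj (vY c) (vK c)}
def eL (c : Cb) : Set (SimpleGraph AV) := {G | G.Adj (vY c) (vL c)}
def eX (c : Cb) : Set (SimpleGraph AV) := {G | G.Adj (vX c) (vY c)}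
def eY (a : Fin 3) (c : Cb) : Set (SimpleGraph AV) := {G | G.Adj (vY c) (vY (fl a c))}
def eXX (a : Fin 3) (c : Cb) : Set (SimpleGraph AV) := {G | G.Adj (vX c) (vX (fl a c))}

/-- pattern at the two neighbours of `c` in the directions `a + 1`, `a + 2` -/
def GG (a : Fin 3) (c : Cb) : Set (SimpleGraph AV) := eK (fl (a + 1) c) ∩ eK (fl (a + 2) c)

/-- `vY c` is joined to `vK c` or to one of the neighbours in directions `a + 1`, `a + 2` -/
def RR (a : Fin 3) (c : Cb) : Set (SimpleGraph AV) := eK c ∪ eY (a + 1) c ∪ eY (a + 2) c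

/-- `vY c` is not joined to `vK c`, `vL c` nor to the neighbours in directions `a + 1`, `a + 2` -/
def MM (a : Fin 3) (c : Cb) : Set (SimpleGraph AV) :=
  (eK c)ᶜ ∩ (eL c)ᶜ ∩ (eY (a + 1) c)ᶜ ∩ (eY (a + 2) c)ᶜ

/-- all three neighbours marked `K` -/
def P3 (a : Fin 3) (c : Cb) : Set (SimpleGraph AV) := eK (fl a c) ∩ GG a c

/-- the neighbour in direction `a` marked `L`, the other two marked `K` -/
def PL (a : Fin 3) (c : Cb) : Set (SimpleGraph AV) := eL (fl a c) ∩ GG a c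

section numbers

variable {Ω : Type} [Fintype Ω] (w : Ω → ℝ) (W : Ω → SimpleGraph AV)

def bb (c : Cb) : ℝ := PG w W (eK c)
def Dd (c : Cb) : ℝ := PG w W (eL c)
def Hd (c : Cb) : ℝ := PG w W ((eX c)ᶜ ∩ eL c)
def gg (a : Fin 3) (c : Cb) : ℝ := PG w W (GG a c)
def BB (a : Fin 3) (c : Cb) : ℝ := PG w W (RR a c ∩ GG a c) / gg w W a c
def RA (a : Fin 3) (c : Cb) : ℝ := PG w W ((eX c)ᶜ ∩ RR a c ∩ GG a c) / gg w W a c

/-- joined only to the neighbour in direction `a` (all neighbours marked `K`) -/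
def tau (a : Fin 3) (c : Cb) : ℝ := PG w W (eY a c ∩ MM a c ∩ P3 a c) / PG w W (P3 a c)

/-- joined exactly to the two neighbours in directions `a + 1`, `a + 2` (all neighbours marked `K`) -/
def gam (a : Fin 3) (c : Cb) : ℝ :=
  PG w W ((eY a c)ᶜ ∩ (eY (a + 1) c ∩ eY (a + 2) c ∩ (eK c)ᶜ ∩ (eL c)ᶜ) ∩ P3 a c) / PG w W (P3 a c)

/-- joined to nothing (the neighbour in direction `a` marked `L`, the others `K`) -/
def lam (a : Fin 3) (c : Cb) : ℝ := PG w W ((eY a c)ᶜ ∩ MM a c ∩ PL a c) / PG w W (PL a c)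

/-- joined only to the neighbour `c'` in direction `a`, which is not joined to its own `K` but to another neighbour -/
def ww (a : Fin 3) (c : Cb) : ℝ :=
  PG w W (eY a c ∩ MM a c ∩ (RR a (fl a c) \ eK (fl a c)) ∩ (GG a c ∩ GG a (fl a c))) /
    (gg w W a c * gg w W a (fl a c))

/-- the correction term of the edge `(c, fl a c)` -/
def Ge (a : Fin 3) (c : Cb) : ℝ :=
  (PG w W (eY a c ∩ RR a c ∩ MM a (fl a c) ∩ (GG a c ∩ GG a (fl a c)))
    + PG w W (eY a c ∩ MM a c ∩ RR a (fl a c) ∩ (GG a c ∩ GG a (fl a c)))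
    - PG w W ((eY a c)ᶜ ∩ RR a c ∩ RR a (fl a c) ∩ (GG a c ∩ GG a (fl a c)))
    - PG w W ((eY a c)ᶜ ∩ (RR a c)ᶜ ∩ (RR a (fl a c))ᶜ ∩ (GG a c ∩ GG a (fl a c)))) /
    (gg w W a c * gg w W a (fl a c))

/-- the bound of the correction term from the side of `c` -/
def gs (a : Fin 3) (c : Cb) : ℝ :=
  ww w W a c + bb w W (fl a c) * (tau w W a c - tau w W (a + 1) c - tau w W (a + 2) c - gam w W a c)
    - Dd w W (fl a c) * lam w W a c

end numbers

end

end Pool.Agent.LPW
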