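import Pool.Agent.LPW.Num

/-!
# LPW: bound of the correction term

`c' = fl a c`, `G = GG a c ∩ GG a c'`.  Put `only b = eY b c ∩ MM b c` (joined only to the neighbour in direction `b`).
(1) `P (eY a c ∩ MM a c ∩ RR a c' ∩ G) = P (eY a c ∩ MM a c ∩ eK c' ∩ G) + P (eY a c ∩ MM a c ∩ (RR a c' \ eK c') ∩ G)`;
the first is `P (eY a c ∩ MM a c ∩ P3 a c) gg' = tau a c * bb c' * gg * gg'`, the second `ww a c * gg * gg'`.
(2) `P ((eY a c)ᶜ ∩ RR a c ∩ RR a c' ∩ G)` is at least the sum of the probabilities of the disjoint events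
`only (a+1) ∩ eK c' ∩ G`, `only (a+2) ∩ eK c' ∩ G`, `(eY a c)ᶜ ∩ (eY (a+1) c ∩ eY (a+2) c ∩ eKᶜ ∩ eLᶜ) ∩ eK c' ∩ G`
(these have `eK c` false) and the three events with `c`, `c'` exchanged (these have `eK c` true); note
`only (a+1) ⊆ (eY a c)ᶜ` because `a + 1 + 2 = a`.  The values are `tau (a+1) c * bb c' * gg gg'` etc.
(`P3 (a+1) c = P3 a c` as sets).
(3) `P ((eY a c)ᶜ ∩ (RR a c)ᶜ ∩ (RR a c')ᶜ ∩ G)` is at least the sum of
`P ((eY a c)ᶜ ∩ MM a c ∩ eL c' ∩ G) - l` (`leak_RL` for `c'`) `= lam a c * Dd c' * gg * gg' - l`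
and the same with `c`, `c'` exchanged (disjoint, since `MM a c ⊆ (eL c)ᶜ`).
-/

set_option autoImplicit false

open Finset
open scoped Classical

namespace Pool.Agent.LPW

open Pool.Agent.OIP

private theorem gb_f1 (a : Fin 3) : a + 1 + 1 = a + 2 := by decide +revert
private theorem gb_f2 (a : Fin 3) : a + 1 + 2 = a := by decide +revert
private theorem gb_f3 (a : Fin 3) : a + 2 + 1 = a := by decide +revert
private theorem gb_f4 (a : Fin 3) : a + 2 + 2 = a + 1 := by decide +revert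

private def gbA (a : Fin 3) (c : Cb) : Set AV :=
  blk c ∪ blk (fl a c) ∪ blk (fl (a + 1) c) ∪ blk (fl (a + 2) c)

private def gbB (a : Fin 3) (c : Cb) : Set AV :=
  blk (fl (a + 1) (fl a c)) ∪ blk (fl (a + 2) (fl a c))

private theorem gb_disj (a : Fin 3) (c : Cb) : Disjoint (gbA a c) (gbB a c) := by
  have h := fl_edge a c
  simp only [List.nodup_cons, List.mem_cons, List.not_mem_nil, or_false, not_or, List.nodup_nil,
    and_true, not_false_eq_true] at h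
  obtain ⟨⟨-, -, -, h1, h2⟩, ⟨-, -, h3, h4⟩, ⟨-, h5, h6⟩, ⟨h7, h8⟩, -⟩ := h
  unfold gbA gbB
  simp only [Set.disjoint_union_left, Set.disjoint_union_right]
  exact ⟨⟨⟨⟨disj_blk h1, disj_blk h3⟩, disj_blk h5⟩, disj_blk h7⟩,
    ⟨⟨⟨disj_blk h2, disj_blk h4⟩, disj_blk h6⟩, disj_blk h8⟩⟩

private theorem gb_satA (a : Fin 3) (c : Cb) : Sat (gbA a c) :=
  ((((sat_blk _).union (sat_blk _)).union (sat_blk _)).union (sat_blk _))

private theorem gb_satB (a : Fin 3) (c : Cb) : Sat (gbB a c) :=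
  (sat_blk _).union (sat_blk _)

private theorem gb_s0 (a : Fin 3) (c : Cb) : blk c ⊆ gbA a c :=
  fun _ h => Or.inl (Or.inl (Or.inl h))
private theorem gb_s1 (a : Fin 3) (c : Cb) : blk (fl a c) ⊆ gbA a c :=
  fun _ h => Or.inl (Or.inl (Or.inr h))
private theorem gb_s2 (a : Fin 3) (c : Cb) : blk (fl (a + 1) c) ⊆ gbA a c :=
  fun _ h => Or.inl (Or.inr h)
private theorem gb_s3 (a : Fin 3) (c : Cb) : blk (fl (a + 2) c) ⊆ gbA a c :=
  fun _ h => Or.inr h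

private theorem gb_dY (a : Fin 3) (c : Cb) : DepOn (gbA a c) (eY a c) :=
  (dep_eY a c).mono (Set.union_subset (gb_s0 a c) (gb_s1 a c))
private theorem gb_dY1 (a : Fin 3) (c : Cb) : DepOn (gbA a c) (eY (a + 1) c) :=
  (dep_eY (a + 1) c).mono (Set.union_subset (gb_s0 a c) (gb_s2 a c))
private theorem gb_dY2 (a : Fin 3) (c : Cb) : DepOn (gbA a c) (eY (a + 2) c) :=
  (dep_eY (a + 2) c).mono (Set.union_subset (gb_s0 a c) (gb_s3 a c))

private theorem gb_dGG (a : Fin 3) (c : Cb) : DepOn (gbA a c) (GG a c) :=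
  ((dep_eK _).mono (gb_s2 a c)).inter ((dep_eK _).mono (gb_s3 a c))

private theorem gb_dP3 (a : Fin 3) (c : Cb) : DepOn (gbA a c) (P3 a c) :=
  ((dep_eK _).mono (gb_s1 a c)).inter (gb_dGG a c)

private theorem gb_dPL (a : Fin 3) (c : Cb) : DepOn (gbA a c) (PL a c) :=
  ((dep_eL _).mono (gb_s1 a c)).inter (gb_dGG a c)

private theorem gb_dK (a : Fin 3) (c : Cb) : DepOn (gbA a c) (eK c) := (dep_eK c).mono (gb_s0 a c)
private theorem gb_dL (a : Fin 3) (c : Cb) : DepOn (gbA a c) (eL c) := (dep_eL c).mono (gb_s0 a c)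

private theorem gb_dMM (a : Fin 3) (c : Cb) : DepOn (gbA a c) (MM a c) :=
  (((gb_dK a c).compl.inter (gb_dL a c).compl).inter (gb_dY1 a c).compl).inter (gb_dY2 a c).compl

private theorem gb_P1 (a : Fin 3) (c : Cb) : P3 (a + 1) c = P3 a c := by
  unfold P3 GG
  rw [gb_f1, gb_f2]
  ext G
  simp only [Set.mem_inter_iff]
  tauto

private theorem gb_P2 (a : Fin 3) (c : Cb) : P3 (a + 2) c = P3 a c := by
  unfold P3 GG
  rw [gb_f3, gb_f4]
  ext G
  simp only [Set.mem_inter_iff]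
  tauto

private theorem gb_dMM1 (a : Fin 3) (c : Cb) : DepOn (gbA a c) (MM (a + 1) c) := by
  unfold MM
  rw [gb_f1, gb_f2]
  exact (((gb_dK a c).compl.inter (gb_dL a c).compl).inter (gb_dY2 a c).compl).inter
    (gb_dY a c).compl

private theorem gb_dMM2 (a : Fin 3) (c : Cb) : DepOn (gbA a c) (MM (a + 2) c) := by
  unfold MM
  rw [gb_f3, gb_f4]
  exact (((gb_dK a c).compl.inter (gb_dL a c).compl).inter (gb_dY a c).compl).inter
    (gb_dY1 a c).compl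

section gb

variable {Ω : Type} [Fintype Ω] {p l : ℝ} {w : Ω → ℝ} {W : Ω → SimpleGraph AV}

private theorem gb_prod (h : WallLaw p (1 / 1000) l w W) (a : Fin 3) (c : Cb)
    {U : Set (SimpleGraph AV)} (hU : DepOn (gbA a c) U) :
    PG w W (U ∩ GG a (fl a c)) = PG w W U * gg w W a (fl a c) := by
  refine PG_inter h (gb_satA a c) (gb_satB a c) (gb_disj a c) hU ?_
  exact ((dep_eK _).mono Set.subset_union_left).inter ((dep_eK _).mono Set.subset_union_right)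

private theorem gb_pos3 (h : WallLaw p (1 / 1000) l w W) (hl : l ≤ 1 / 10000) (a : Fin 3)
    (c : Cb) : 0 < PG w W (P3 a c) := by
  rw [P3_eq h]
  have h1 := (num_bb h hl (fl a c)).1
  have h2 := (gg_bounds h hl a c).1
  have h3 := sc_bounds.1
  have h4 : 0 < bb w W (fl a c) := by norm_num at h3 ⊢; linarith
  have h5 : 0 < gg w W a c := by norm_num at h2; linarith
  exact mul_pos h4 h5

private theorem gb_posL (h : WallLaw p (1 / 1000) l w W) (hl : l ≤ 1 / 10000) (a : Fin 3)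
    (c : Cb) : 0 < PG w W (PL a c) := by
  rw [PL_eq h]
  have h1 := (num_Dd h hl (fl a c)).1
  have h2 := (gg_bounds h hl a c).1
  have h3 := sc_bounds.2
  have h4 : 0 < Dd w W (fl a c) := by norm_num at h3 ⊢; linarith
  have h5 : 0 < gg w W a c := by norm_num at h2; linarith
  exact mul_pos h4 h5

/-- the value of an event inside `P3` -/
private theorem gb_tau (h : WallLaw p (1 / 1000) l w W) (hl : l ≤ 1 / 10000) (a : Fin 3) (c : Cb)
    {U : Set (SimpleGraph AV)} (hU : DepOn (gbA a c) U) :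
    PG w W (U ∩ P3 a c ∩ GG a (fl a c)) =
      PG w W (U ∩ P3 a c) / PG w W (P3 a c) *
        (bb w W (fl a c) * gg w W a c * gg w W a (fl a c)) := by
  rw [gb_prod h a c (hU.inter (gb_dP3 a c))]
  have h1 := gb_pos3 h hl a c
  have h2 := P3_eq h a c
  rw [← h2]
  field_simp

private theorem gb_T (h : WallLaw p (1 / 1000) l w W) (hl : l ≤ 1 / 10000) (a : Fin 3) (c : Cb) :
    PG w W (eY a c ∩ MM a c ∩ RR a (fl a c) ∩ (GG a c ∩ GG a (fl a c))) =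
      (tau w W a c * bb w W (fl a c) + ww w W a c) * (gg w W a c * gg w W a (fl a c)) := by
  rw [← PG_split h _ (eK (fl a c))]
  have s1 : eY a c ∩ MM a c ∩ RR a (fl a c) ∩ (GG a c ∩ GG a (fl a c)) ∩ eK (fl a c) =
      (eY a c ∩ MM a c) ∩ P3 a c ∩ GG a (fl a c) := by
    ext G
    simp only [P3, RR, Set.mem_inter_iff, Set.mem_union]
    tauto
  have s2 : eY a c ∩ MM a c ∩ RR a (fl a c) ∩ (GG a c ∩ GG a (fl a c)) ∩ (eK (fl a c))ᶜ =
      eY a c ∩ MM a c ∩ (RR a (fl a c) \ eK (fl a c)) ∩ (GG a c ∩ GG a (fl a c)) := by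
    ext G
    simp only [Set.mem_inter_iff, Set.mem_sdiff, Set.mem_compl_iff]
    tauto
  have h2 := (gg_bounds h hl a c).1
  have h3 := (gg_bounds h hl a (fl a c)).1
  have h4 : 0 < gg w W a c := by norm_num at h2; linarith
  have h5 : 0 < gg w W a (fl a c) := by norm_num at h3; linarith
  rw [s1, s2, gb_tau h hl a c ((gb_dY a c).inter (gb_dMM a c))]
  unfold tau ww
  field_simp

private theorem gb_S (h : WallLaw p (1 / 1000) l w W) (hl : l ≤ 1 / 10000) (a : Fin 3) (c : Cb) :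
    (tau w W (a + 1) c + tau w W (a + 2) c + gam w W a c) *
        (bb w W (fl a c) * gg w W a c * gg w W a (fl a c)) ≤
      PG w W ((eY a c)ᶜ ∩ RR a c ∩ ((eK c)ᶜ ∩ eK (fl a c)) ∩ (GG a c ∩ GG a (fl a c))) := by
  have t1 : tau w W (a + 1) c * (bb w W (fl a c) * gg w W a c * gg w W a (fl a c)) =
      PG w W ((eY (a + 1) c ∩ MM (a + 1) c) ∩ P3 a c ∩ GG a (fl a c)) := by
    rw [gb_tau h hl a c ((gb_dY1 a c).inter (gb_dMM1 a c))]
    unfold tau
    rw [gb_P1]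
  have t2 : tau w W (a + 2) c * (bb w W (fl a c) * gg w W a c * gg w W a (fl a c)) =
      PG w W ((eY (a + 2) c ∩ MM (a + 2) c) ∩ P3 a c ∩ GG a (fl a c)) := by
    rw [gb_tau h hl a c ((gb_dY2 a c).inter (gb_dMM2 a c))]
    unfold tau
    rw [gb_P2]
  have t3 : gam w W a c * (bb w W (fl a c) * gg w W a c * gg w W a (fl a c)) =
      PG w W (((eY a c)ᶜ ∩ (eY (a + 1) c ∩ eY (a + 2) c ∩ (eK c)ᶜ ∩ (eL c)ᶜ)) ∩ P3 a c ∩
        GG a (fl a c)) := by
    rw [gb_tau h hl a c ((gb_dY a c).compl.inter ((((gb_dY1 a c).inter (gb_dY2 a c)).inter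
      (gb_dK a c).compl).inter (gb_dL a c).compl))]
    rfl
  rw [add_mul, add_mul, t1, t2, t3]
  -- split the big event
  set X := (eY a c)ᶜ ∩ RR a c ∩ ((eK c)ᶜ ∩ eK (fl a c)) ∩ (GG a c ∩ GG a (fl a c)) with hX
  have u1 : PG w W (X ∩ eY (a + 1) c) + PG w W (X ∩ (eY (a + 1) c)ᶜ) = PG w W X := PG_split h _ _
  have u2 : PG w W (X ∩ eY (a + 1) c ∩ eY (a + 2) c) +
      PG w W (X ∩ eY (a + 1) c ∩ (eY (a + 2) c)ᶜ) = PG w W (X ∩ eY (a + 1) c) := PG_split h _ _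
  have v1 : PG w W ((eY (a + 1) c ∩ MM (a + 1) c) ∩ P3 a c ∩ GG a (fl a c)) ≤
      PG w W (X ∩ eY (a + 1) c ∩ (eY (a + 2) c)ᶜ) := by
    refine PG_mono h ?_
    rw [hX]
    unfold MM
    rw [gb_f1, gb_f2]
    intro G
    simp only [P3, RR, Set.mem_inter_iff, Set.mem_union, Set.mem_compl_iff]
    tauto
  have v2 : PG w W ((eY (a + 2) c ∩ MM (a + 2) c) ∩ P3 a c ∩ GG a (fl a c)) ≤
      PG w W (X ∩ (eY (a + 1) c)ᶜ) := by
    refine PG_mono h ?_
    rw [hX]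
    unfold MM
    rw [gb_f3, gb_f4]
    intro G
    simp only [P3, RR, Set.mem_inter_iff, Set.mem_union, Set.mem_compl_iff]
    tauto
  have v3 : PG w W (((eY a c)ᶜ ∩ (eY (a + 1) c ∩ eY (a + 2) c ∩ (eK c)ᶜ ∩ (eL c)ᶜ)) ∩ P3 a c ∩
        GG a (fl a c)) ≤ PG w W (X ∩ eY (a + 1) c ∩ eY (a + 2) c) := by
    refine PG_mono h ?_
    rw [hX]
    intro G
    simp only [P3, RR, Set.mem_inter_iff, Set.mem_union, Set.mem_compl_iff]
    tauto
  linarith

private theorem gb_L (h : WallLaw p (1 / 1000) l w W) (hl : l ≤ 1 / 10000) (a : Fin 3) (c : Cb) :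
    lam w W a c * (Dd w W (fl a c) * gg w W a c * gg w W a (fl a c)) ≤
      PG w W ((eY a c)ᶜ ∩ (RR a c)ᶜ ∩ (RR a (fl a c))ᶜ ∩ (GG a c ∩ GG a (fl a c)) ∩
        ((eL c)ᶜ ∩ eL (fl a c))) + l := by
  have t1 : lam w W a c * (Dd w W (fl a c) * gg w W a c * gg w W a (fl a c)) =
      PG w W (((eY a c)ᶜ ∩ MM a c ∩ PL a c) ∩ GG a (fl a c)) := by
    rw [gb_prod h a c (((gb_dY a c).compl.inter (gb_dMM a c)).inter (gb_dPL a c))]
    have h1 := gb_posL h hl a c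
    have h2 := PL_eq h a c
    unfold lam
    rw [← h2]
    field_simp
  rw [t1]
  refine PG_le_leak h ?_
  intro G hG
  have hlk := @leak_RL a (fl a c) G
  simp only [PL, MM, RR, Set.mem_inter_iff, Set.mem_union, Set.mem_compl_iff] at hG hlk ⊢
  tauto

end gb

theorem Ge_le {Ω : Type} [Fintype Ω] {p l : ℝ} {w : Ω → ℝ} {W : Ω → SimpleGraph AV}
    (h : WallLaw p (1 / 1000) l w W) (h0 : 0 ≤ l) (hl : l ≤ 1 / 10000) (a : Fin 3) (c : Cb) :
    Ge w W a c ≤ gs w W a c + gs w W a (fl a c) + 40 * l := by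
  have hT := gb_T h hl a c
  have hT' := gb_T h hl a (fl a c)
  have hS := gb_S h hl a c
  have hS' := gb_S h hl a (fl a c)
  have hL := gb_L h hl a c
  have hL' := gb_L h hl a (fl a c)
  rw [eY_symm, fl_fl] at hT' hS' hL'
  set N1 := PG w W (eY a c ∩ RR a c ∩ MM a (fl a c) ∩ (GG a c ∩ GG a (fl a c))) with hN1
  set N2 := PG w W (eY a c ∩ MM a c ∩ RR a (fl a c) ∩ (GG a c ∩ GG a (fl a c))) with hN2
  set N3 := PG w W ((eY a c)ᶜ ∩ RR a c ∩ RR a (fl a c) ∩ (GG a c ∩ GG a (fl a c))) with hN3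
  set N4 := PG w W ((eY a c)ᶜ ∩ (RR a c)ᶜ ∩ (RR a (fl a c))ᶜ ∩ (GG a c ∩ GG a (fl a c))) with hN4
  have e1 : N1 = PG w W (eY a c ∩ MM a (fl a c) ∩ RR a c ∩ (GG a (fl a c) ∩ GG a c)) := by
    rw [hN1]
    congr 1
    ext G
    simp only [Set.mem_inter_iff]
    tauto
  have e3 : PG w W ((eY a c)ᶜ ∩ RR a c ∩ ((eK c)ᶜ ∩ eK (fl a c)) ∩ (GG a c ∩ GG a (fl a c))) +
      PG w W ((eY a c)ᶜ ∩ RR a (fl a c) ∩ ((eK (fl a c))ᶜ ∩ eK c) ∩
        (GG a (fl a c) ∩ GG a c)) ≤ N3 := by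
    have u0 := PG_split h ((eY a c)ᶜ ∩ RR a c ∩ RR a (fl a c) ∩ (GG a c ∩ GG a (fl a c))) (eK c)
    rw [← hN3] at u0
    have u1 : PG w W ((eY a c)ᶜ ∩ RR a c ∩ ((eK c)ᶜ ∩ eK (fl a c)) ∩ (GG a c ∩ GG a (fl a c))) ≤
        PG w W ((eY a c)ᶜ ∩ RR a c ∩ RR a (fl a c) ∩ (GG a c ∩ GG a (fl a c)) ∩ (eK c)ᶜ) := by
      refine PG_mono h ?_
      intro G
      simp only [RR, Set.mem_inter_iff, Set.mem_union, Set.mem_compl_iff]
      tauto
    have u2 : PG w W ((eY a c)ᶜ ∩ RR a (fl a c) ∩ ((eK (fl a c))ᶜ ∩ eK c) ∩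
        (GG a (fl a c) ∩ GG a c)) ≤
        PG w W ((eY a c)ᶜ ∩ RR a c ∩ RR a (fl a c) ∩ (GG a c ∩ GG a (fl a c)) ∩ eK c) := by
      refine PG_mono h ?_
      intro G
      simp only [RR, Set.mem_inter_iff, Set.mem_union, Set.mem_compl_iff]
      tauto
    linarith
  have e4 : PG w W ((eY a c)ᶜ ∩ (RR a c)ᶜ ∩ (RR a (fl a c))ᶜ ∩ (GG a c ∩ GG a (fl a c)) ∩
        ((eL c)ᶜ ∩ eL (fl a c))) +
      PG w W ((eY a c)ᶜ ∩ (RR a (fl a c))ᶜ ∩ (RR a c)ᶜ ∩ (GG a (fl a c) ∩ GG a c) ∩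
        ((eL (fl a c))ᶜ ∩ eL c)) ≤ N4 := by
    have u0 := PG_split h ((eY a c)ᶜ ∩ (RR a c)ᶜ ∩ (RR a (fl a c))ᶜ ∩
      (GG a c ∩ GG a (fl a c))) (eL c)
    rw [← hN4] at u0
    have u1 : PG w W ((eY a c)ᶜ ∩ (RR a c)ᶜ ∩ (RR a (fl a c))ᶜ ∩ (GG a c ∩ GG a (fl a c)) ∩
        ((eL c)ᶜ ∩ eL (fl a c))) ≤
        PG w W ((eY a c)ᶜ ∩ (RR a c)ᶜ ∩ (RR a (fl a c))ᶜ ∩ (GG a c ∩ GG a (fl a c)) ∩
          (eL c)ᶜ) := by
      refine PG_mono h ?_
      intro G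
      simp only [Set.mem_inter_iff, Set.mem_compl_iff]
      tauto
    have u2 : PG w W ((eY a c)ᶜ ∩ (RR a (fl a c))ᶜ ∩ (RR a c)ᶜ ∩ (GG a (fl a c) ∩ GG a c) ∩
        ((eL (fl a c))ᶜ ∩ eL c)) ≤
        PG w W ((eY a c)ᶜ ∩ (RR a c)ᶜ ∩ (RR a (fl a c))ᶜ ∩ (GG a c ∩ GG a (fl a c)) ∩ eL c) := by
      refine PG_mono h ?_
      intro G
      simp only [Set.mem_inter_iff, Set.mem_compl_iff]
      tauto
    linarith
  have h2 := (gg_bounds h hl a c).1
  have h3 := (gg_bounds h hl a (fl a c)).1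
  have h4 : 0 < gg w W a c := by norm_num at h2; linarith
  have h5 : 0 < gg w W a (fl a c) := by norm_num at h3; linarith
  have h6 : 0.16 ≤ gg w W a c * gg w W a (fl a c) := by
    have := mul_le_mul h2 h3 (by norm_num) h4.le
    norm_num at this ⊢
    linarith
  have hGe : Ge w W a c = (N1 + N2 - N3 - N4) / (gg w W a c * gg w W a (fl a c)) := rfl
  rw [hGe, div_le_iff₀ (mul_pos h4 h5)]
  have hg1 : gs w W a c = ww w W a c + bb w W (fl a c) *
      (tau w W a c - tau w W (a + 1) c - tau w W (a + 2) c - gam w W a c)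
      - Dd w W (fl a c) * lam w W a c := rfl
  have hg2 : gs w W a (fl a c) = ww w W a (fl a c) + bb w W c *
      (tau w W a (fl a c) - tau w W (a + 1) (fl a c) - tau w W (a + 2) (fl a c)
        - gam w W a (fl a c)) - Dd w W c * lam w W a (fl a c) := by
    unfold gs
    rw [fl_fl]
  rw [hg1, hg2]
  rw [← e1] at hT'
  have h7 : 40 * l * 0.16 ≤ 40 * l * (gg w W a c * gg w W a (fl a c)) :=
    mul_le_mul_of_nonneg_left h6 (by linarith)
  norm_num at h7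
  nlinarith

end Pool.Agent.LPW
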