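import Pool.Agent.LPW.Num

/-!
# LPW: inequality (I) for the vertical edge

`PG (eXᶜ ∩ RR ∩ GG) + PG (eXᶜ ∩ eL) * gg`: the second product is `PG (eXᶜ ∩ eL ∩ GG)` (independence of
`{vX c} ∪ blk c` and the blocks of the two neighbours).  The sum is
`PG (eXᶜ ∩ GG ∩ (RR ∪ eL)) + PG (eXᶜ ∩ GG ∩ RR ∩ eL) ≤ PG (eXᶜ ∩ GG) + PG Lk ≤ (1 - p) gg + l` (`leak_RL`).
Divide by `gg ≥ 0.4`.
-/

set_option autoImplicit false

open Finset
open scoped Classical

namespace Pool.Agent.LPW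

open Pool.Agent.OIP

theorem i1_sum {Ω : Type} [Fintype Ω] {p l : ℝ} {w : Ω → ℝ} {W : Ω → SimpleGraph AV}
    (h : WallLaw p (1 / 1000) l w W) (a : Fin 3) (c : Cb) :
    PG w W ((eX c)ᶜ ∩ RR a c ∩ GG a c) + PG w W ((eX c)ᶜ ∩ eL c ∩ GG a c) ≤
      PG w W ((eX c)ᶜ ∩ GG a c) + l := by
  have e0 : PG w W (∅ : Set (SimpleGraph AV)) = 0 := by
    have := PG_compl h (Set.univ : Set (SimpleGraph AV))
    have hu : PG w W (Set.univ : Set (SimpleGraph AV)) = 1 := by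
      unfold PG
      have : {ω | W ω ∈ (Set.univ : Set (SimpleGraph AV))} = Set.univ := by
        ext ω; simp
      rw [this]
      exact pr_univ h.law
    rw [Set.compl_univ, hu] at this
    linarith
  have s1 := PG_split h ((eX c)ᶜ ∩ RR a c ∩ GG a c) (eL c)
  have s2 := PG_split h ((eX c)ᶜ ∩ GG a c) (eL c)
  have s3 : PG w W ((eX c)ᶜ ∩ RR a c ∩ GG a c ∩ eL c) ≤ PG w W (∅ : Set (SimpleGraph AV)) + l := by
    refine PG_le_leak h ?_
    intro G hG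
    refine Or.inr (leak_RL a c ?_)
    exact ⟨⟨hG.1.1.2, hG.1.2⟩, hG.2⟩
  have s4 : PG w W ((eX c)ᶜ ∩ RR a c ∩ GG a c ∩ (eL c)ᶜ) ≤ PG w W ((eX c)ᶜ ∩ GG a c ∩ (eL c)ᶜ) := by
    refine PG_mono h ?_
    intro G hG
    exact ⟨⟨hG.1.1.1, hG.1.2⟩, hG.2⟩
  have s5 : PG w W ((eX c)ᶜ ∩ eL c ∩ GG a c) ≤ PG w W ((eX c)ᶜ ∩ GG a c ∩ eL c) := by
    refine PG_mono h ?_
    intro G hG
    exact ⟨⟨hG.1.1, hG.2⟩, hG.1.2⟩
  linarith

theorem ineq_one {Ω : Type} [Fintype Ω] {p l : ℝ} {w : Ω → ℝ} {W : Ω → SimpleGraph AV}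
    (h : WallLaw p (1 / 1000) l w W) (h0 : 0 ≤ l) (hl : l ≤ 1 / 10000) (a : Fin 3) (c : Cb) :
    RA w W a c + Hd w W c ≤ 1 - p + 3 * l := by
  have hnd := fl_edge a c
  simp only [List.nodup_cons, List.mem_cons, List.not_mem_nil, or_false, not_or] at hnd
  have n1 : c ≠ fl (a + 1) c := hnd.1.2.1
  have n2 : c ≠ fl (a + 2) c := hnd.1.2.2.1
  have hS1 : Sat ({vX c} ∪ blk c) := (sat_X c).union (sat_blk c)
  have hS2 : Sat (blk (fl (a + 1) c) ∪ blk (fl (a + 2) c)) := (sat_blk _).union (sat_blk _)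
  have hD : Disjoint ({vX c} ∪ blk c) (blk (fl (a + 1) c) ∪ blk (fl (a + 2) c)) := by
    rw [Set.disjoint_union_left]
    constructor
    · rw [Set.disjoint_union_right]
      exact ⟨disj_X_blk _ _, disj_X_blk _ _⟩
    · rw [Set.disjoint_union_right]
      exact ⟨disj_blk n1, disj_blk n2⟩
  have dG : DepOn (blk (fl (a + 1) c) ∪ blk (fl (a + 2) c)) (GG a c) :=
    ((dep_eK _).mono Set.subset_union_left).inter ((dep_eK _).mono Set.subset_union_right)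
  have dX : DepOn ({vX c} ∪ blk c) (eX c)ᶜ := (dep_eX c).compl
  have dL : DepOn ({vX c} ∪ blk c) (eL c) := (dep_eL c).mono Set.subset_union_right
  have f1 : PG w W ((eX c)ᶜ ∩ eL c ∩ GG a c) = Hd w W c * gg w W a c :=
    PG_inter h hS1 hS2 hD (dX.inter dL) dG
  have f2 : PG w W ((eX c)ᶜ ∩ GG a c) = PG w W (eX c)ᶜ * gg w W a c :=
    PG_inter h hS1 hS2 hD dX dG
  have f3 : PG w W (eX c)ᶜ ≤ 1 - p := by
    rw [PG_compl h]
    have := h.xy c
    have e : PG w W (eX c) = pr w {ω | (W ω).Adj (vX c) (vY c)} := rfl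
    rw [e]
    linarith
  have hg := gg_bounds h hl a c
  have hs := i1_sum h a c
  rw [f1, f2] at hs
  have hgp : 0 < gg w W a c := by linarith [hg.1]
  have key : PG w W ((eX c)ᶜ ∩ RR a c ∩ GG a c) ≤ (1 - p + 3 * l - Hd w W c) * gg w W a c := by
    have t1 : PG w W (eX c)ᶜ * gg w W a c ≤ (1 - p) * gg w W a c :=
      mul_le_mul_of_nonneg_right f3 hgp.le
    have t2 : l ≤ 3 * l * gg w W a c := by nlinarith [hg.1]
    nlinarith
  have : RA w W a c ≤ 1 - p + 3 * l - Hd w W c := by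
    unfold RA
    rw [div_le_iff₀ hgp]
    exact key
  linarith

end Pool.Agent.LPW
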