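import Pool.Agent.LPW.Dep

/-!
# LPW: numerical bounds

`η = 1/1000`, `l ≤ 1/10000`.  `PG (eK ∩ eL) ≤ l` (path `K - Y - L`), hence `bb + Dd ≤ 1 + l`, upper bounds.
`PG (eKᶜ ∩ eLᶜ) = 1 - bb - Dd + PG (eK ∩ eL) ≤ 2 η + l`.  `gg a c = bb (fl (a+1) c) * bb (fl (a+2) c)`.
`eK c ⊆ RR a c` and independence give `bb c ≤ BB a c`; `RR ∩ GG ⊆ eK ∪ (eKᶜ ∩ eLᶜ) ∪ Lk` gives
`BB ≤ bb + 3/1000 + l / gg`.  Use `1.732 < √3 < 1.7321`.
-/

set_option autoImplicit false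

open Finset
open scoped Classical

namespace Pool.Agent.LPW

open Pool.Agent.OIP

theorem num_sqrt3 : 1.732 < Real.sqrt 3 ∧ Real.sqrt 3 < 1.7321 ∧ Real.sqrt 3 * Real.sqrt 3 = 3 := by
  refine ⟨?_, ?_, Real.mul_self_sqrt (by norm_num)⟩
  · rw [Real.lt_sqrt (by norm_num)]
    norm_num
  · rw [Real.sqrt_lt' (by norm_num)]
    norm_num

theorem sc_bounds : 0.6339 < sc ∧ sc < 0.634 := by
  obtain ⟨h1, h2, _⟩ := num_sqrt3
  unfold sc
  constructor <;> linarith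

theorem pc_bounds : 0.5358 < pc ∧ pc < 0.536 := by
  obtain ⟨h1, h2, _⟩ := num_sqrt3
  unfold pc
  constructor <;> linarith

theorem pc_sc : pc * sc ^ 2 = (1 - pc) ^ 2 := by
  obtain ⟨_, _, h3⟩ := num_sqrt3
  unfold pc sc
  linear_combination (-(Real.sqrt 3) / 2) * h3

theorem pc_sc' : 1 - 2 * sc + 2 * sc ^ 2 = pc := by
  obtain ⟨_, _, h3⟩ := num_sqrt3
  unfold pc sc
  linear_combination (1 / 2) * h3

section num

variable {Ω : Type} [Fintype Ω] {p l : ℝ} {w : Ω → ℝ} {W : Ω → SimpleGraph AV}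

theorem num_KL (h : WallLaw p (1 / 1000) l w W) (c : Cb) : PG w W (eK c ∩ eL c) ≤ l := by
  refine (PG_mono h (U' := Lk) ?_).trans h.leak
  rintro G ⟨h1, h2⟩
  exact ⟨c, c, (Relation.ReflTransGen.single h1.symm).tail h2⟩

theorem num_bb_lo (h : WallLaw p (1 / 1000) l w W) (c : Cb) : sc - 1 / 1000 ≤ bb w W c := h.yk c

theorem num_Dd_lo (h : WallLaw p (1 / 1000) l w W) (c : Cb) : 1 - sc - 1 / 1000 ≤ Dd w W c := h.yl c

/-- inclusion and exclusion -/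
theorem num_incl (h : WallLaw p (1 / 1000) l w W) (c : Cb) :
    PG w W ((eK c)ᶜ ∩ (eL c)ᶜ) = 1 - bb w W c - Dd w W c + PG w W (eK c ∩ eL c) := by
  have h1 := PG_split h (eK c)ᶜ (eL c)
  have h2 := PG_split h (eL c) (eK c)
  have h3 := PG_compl h (eK c)
  rw [Set.inter_comm (eL c) (eK c), Set.inter_comm (eL c) (eK c)ᶜ] at h2
  unfold bb Dd
  linarith

theorem num_bb (h : WallLaw p (1 / 1000) l w W) (hl : l ≤ 1 / 10000) (c : Cb) :
    sc - 1 / 1000 ≤ bb w W c ∧ bb w W c ≤ sc + 2 / 1000 := by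
  have h1 := num_incl h c
  have h2 := PG_nonneg h ((eK c)ᶜ ∩ (eL c)ᶜ)
  have h3 := num_KL h c
  have h4 := num_Dd_lo h c
  exact ⟨num_bb_lo h c, by linarith⟩

theorem num_Dd (h : WallLaw p (1 / 1000) l w W) (hl : l ≤ 1 / 10000) (c : Cb) :
    1 - sc - 1 / 1000 ≤ Dd w W c ∧ Dd w W c ≤ 1 - sc + 2 / 1000 := by
  have h1 := num_incl h c
  have h2 := PG_nonneg h ((eK c)ᶜ ∩ (eL c)ᶜ)
  have h3 := num_KL h c
  have h4 := num_bb_lo h c
  exact ⟨num_Dd_lo h c, by linarith⟩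

theorem num_neither (h : WallLaw p (1 / 1000) l w W) (hl : l ≤ 1 / 10000) (c : Cb) :
    PG w W ((eK c)ᶜ ∩ (eL c)ᶜ) ≤ 3 / 1000 := by
  have h1 := num_incl h c
  have h3 := num_KL h c
  have h4 := num_bb_lo h c
  have h5 := num_Dd_lo h c
  linarith

theorem num_idx (a : Fin 3) : a ≠ a + 1 ∧ a ≠ a + 2 ∧ a + 1 ≠ a + 2 := by
  revert a
  decide

theorem num_fl_ne {a b : Fin 3} (hab : a ≠ b) (c : Cb) : fl a c ≠ fl b c := fun h => hab (fl_inj h)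

theorem num_dep_GG (a : Fin 3) (c : Cb) : DepOn (blk (fl (a + 1) c) ∪ blk (fl (a + 2) c)) (GG a c) :=
  ((dep_eK _).mono Set.subset_union_left).inter ((dep_eK _).mono Set.subset_union_right)

/-- an event of the block of `d` is independent of `GG a c` -/
theorem num_blk_GG (h : WallLaw p (1 / 1000) l w W) (a : Fin 3) (c d : Cb) (h1 : d ≠ fl (a + 1) c)
    (h2 : d ≠ fl (a + 2) c) {U : Set (SimpleGraph AV)} (hU : DepOn (blk d) U) :
    PG w W (U ∩ GG a c) = PG w W U * gg w W a c :=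
  PG_inter h (sat_blk d) ((sat_blk _).union (sat_blk _))
    (Set.disjoint_union_right.2 ⟨disj_blk h1, disj_blk h2⟩) hU (num_dep_GG a c)

theorem gg_eq (h : WallLaw p (1 / 1000) l w W) (a : Fin 3) (c : Cb) :
    gg w W a c = bb w W (fl (a + 1) c) * bb w W (fl (a + 2) c) :=
  PG_inter h (sat_blk _) (sat_blk _) (disj_blk (num_fl_ne (num_idx a).2.2 c)) (dep_eK _) (dep_eK _)

theorem gg_bounds (h : WallLaw p (1 / 1000) l w W) (hl : l ≤ 1 / 10000) (a : Fin 3) (c : Cb) :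
    0.4 ≤ gg w W a c ∧ gg w W a c ≤ 1 := by
  refine ⟨?_, PG_le_one h _⟩
  rw [gg_eq h]
  have h1 := (num_bb h hl (fl (a + 1) c)).1
  have h2 := (num_bb h hl (fl (a + 2) c)).1
  have h3 := sc_bounds.1
  have h4 : 0.6329 ≤ bb w W (fl (a + 1) c) := by linarith
  have h5 : 0.6329 ≤ bb w W (fl (a + 2) c) := by linarith
  nlinarith [mul_le_mul h4 h5 (by norm_num) (by linarith)]

theorem P3_eq (h : WallLaw p (1 / 1000) l w W) (a : Fin 3) (c : Cb) :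
    PG w W (P3 a c) = bb w W (fl a c) * gg w W a c :=
  num_blk_GG h a c (fl a c) (num_fl_ne (num_idx a).1 c) (num_fl_ne (num_idx a).2.1 c) (dep_eK _)

theorem PL_eq (h : WallLaw p (1 / 1000) l w W) (a : Fin 3) (c : Cb) :
    PG w W (PL a c) = Dd w W (fl a c) * gg w W a c :=
  num_blk_GG h a c (fl a c) (num_fl_ne (num_idx a).1 c) (num_fl_ne (num_idx a).2.1 c) (dep_eL _)

theorem num_BB (h : WallLaw p (1 / 1000) l w W) (h0 : 0 ≤ l) (hl : l ≤ 1 / 10000) (a : Fin 3) (c : Cb) :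
    sc - 1 / 1000 ≤ BB w W a c ∧ BB w W a c ≤ sc + 6 / 1000 := by
  have hg := (gg_bounds h hl a c).1
  have hg0 : 0 < gg w W a c := by linarith
  have hne1 : c ≠ fl (a + 1) c := (fl_ne _ c).symm
  have hne2 : c ≠ fl (a + 2) c := (fl_ne _ c).symm
  have hK : PG w W (eK c ∩ GG a c) = bb w W c * gg w W a c := num_blk_GG h a c c hne1 hne2 (dep_eK c)
  have hN : PG w W (((eK c)ᶜ ∩ (eL c)ᶜ) ∩ GG a c) = PG w W ((eK c)ᶜ ∩ (eL c)ᶜ) * gg w W a c :=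
    num_blk_GG h a c c hne1 hne2 ((dep_eK c).compl.inter (dep_eL c).compl)
  have hb := num_bb h hl c
  have hn := num_neither h hl c
  constructor
  · refine hb.1.trans ?_
    unfold BB
    rw [le_div_iff₀ hg0, ← hK]
    exact PG_mono h fun G hG => ⟨Or.inl (Or.inl hG.1), hG.2⟩
  · have h1 : PG w W (RR a c ∩ GG a c) ≤
        PG w W ((eK c ∩ GG a c) ∪ (((eK c)ᶜ ∩ (eL c)ᶜ) ∩ GG a c)) + l := by
      refine PG_le_leak h ?_
      rintro G ⟨hR, hG⟩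
      by_cases h1 : G ∈ eK c
      · exact Or.inl (Or.inl ⟨h1, hG⟩)
      · by_cases h2 : G ∈ eL c
        · exact Or.inr (leak_RL a c ⟨⟨hR, hG⟩, h2⟩)
        · exact Or.inl (Or.inr ⟨⟨h1, h2⟩, hG⟩)
    have h2 := PG_union_le h (eK c ∩ GG a c) (((eK c)ᶜ ∩ (eL c)ᶜ) ∩ GG a c)
    unfold BB
    rw [div_le_iff₀ hg0]
    have h3 : PG w W ((eK c)ᶜ ∩ (eL c)ᶜ) * gg w W a c ≤ 3 / 1000 * gg w W a c :=
      mul_le_mul_of_nonneg_right hn hg0.le
    have h4 : bb w W c * gg w W a c ≤ (sc + 2 / 1000) * gg w W a c :=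
      mul_le_mul_of_nonneg_right hb.2 hg0.le
    nlinarith

theorem num_Hd (h : WallLaw p (1 / 1000) l w W) (c : Cb) : 0 ≤ Hd w W c ∧ Hd w W c ≤ 1 / 1000 :=
  ⟨PG_nonneg h _, h.cl c⟩

theorem num_RA (h : WallLaw p (1 / 1000) l w W) (hl : l ≤ 1 / 10000) (a : Fin 3) (c : Cb) :
    0 ≤ RA w W a c ∧ RA w W a c ≤ BB w W a c := by
  have hg := (gg_bounds h hl a c).1
  have hg0 : 0 < gg w W a c := by linarith
  refine ⟨div_nonneg (PG_nonneg h _) hg0.le, ?_⟩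
  unfold RA BB
  exact div_le_div_of_nonneg_right (PG_mono h fun G hG => ⟨hG.1.2, hG.2⟩) hg0.le

theorem num_nonneg (h : WallLaw p (1 / 1000) l w W) (hl : l ≤ 1 / 10000) (a : Fin 3) (c : Cb) :
    0 ≤ tau w W a c ∧ 0 ≤ gam w W a c ∧ 0 ≤ lam w W a c ∧ 0 ≤ ww w W a c :=
  ⟨div_nonneg (PG_nonneg h _) (PG_nonneg h _), div_nonneg (PG_nonneg h _) (PG_nonneg h _),
    div_nonneg (PG_nonneg h _) (PG_nonneg h _),
    div_nonneg (PG_nonneg h _) (mul_nonneg (PG_nonneg h _) (PG_nonneg h _))⟩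

end num

end Pool.Agent.LPW
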